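import Pool.Agent.MP049a2b.Defs

namespace Pool.Agent.MP049a2b

open scoped ENNReal NNReal

theorem J6_avg (I : Set ℝ) (hI : Convex ℝ I) {a b c d : ℝ} (ha : a ∈ I) (hb : b ∈ I) (hc : c ∈ I)
    (hd : d ∈ I) : (a + b + c + d) / 4 ∈ I := by
  have h1 : ∀ {x y : ℝ}, x ∈ I → y ∈ I → (x + y) / 2 ∈ I := by
    intro x y hx hy
    have := hI hx hy (show (0:ℝ) ≤ 1 / 2 by norm_num) (show (0:ℝ) ≤ 1 / 2 by norm_num) (by norm_num)
    have e : (1 / 2 : ℝ) • x + (1 / 2 : ℝ) • y = (x + y) / 2 := by simp only [smul_eq_mul]; ring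
    rwa [e] at this
  have := h1 (h1 ha hb) (h1 hc hd)
  have e : ((a + b) / 2 + (c + d) / 2) / 2 = (a + b + c + d) / 4 := by ring
  rwa [e] at this

theorem J6_ok (l : Letter) (w : List Letter) (hl : okL l = true) (hw : Ok w) : Ok (l :: w) := by
  intro l' hl'
  rcases List.mem_cons.mp hl' with h | h
  · rw [h]; exact hl
  · exact hw l' h

theorem J6_0 (u : Plane → ℝ) (N : ℕ) (I : Set ℝ) (hI : Convex ℝ I)
    (corner : ∀ (w : List Letter), Ok w → ∀ (a b : Fin 2),
      (!₂[((X w : ℝ) + ((a : ℕ) : ℝ)) / 9 ^ w.length, ((Y w : ℝ) + ((b : ℕ) : ℝ)) / 9 ^ w.length]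
      : Plane) ∈ K w)
    (sub : ∀ (l : Letter) (w : List Letter), K (l :: w) ⊆ K w) (k : ℕ) :
    ∀ (w : List Letter), k + w.length = N → Ok w →
      (∀ p ∈ K w, 9 ^ w.length * p 0 = X w → u p ∈ I) → V u N k (X w) (Y w) ∈ I := by
  induction k with
  | zero =>
    intro w hN hw h
    have hc := corner w hw 0 0
    rw [zero_add] at hN
    simp only [Fin.val_zero, Nat.cast_zero, add_zero] at hc
    rw [V, ← hN]
    apply h _ hc
    simp only [PiLp.toLp_apply, Matrix.cons_val_zero]
    field_simp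
  | succ k ih =>
    intro w hN hw h
    have step : ∀ j : Fin 9, okL (0, j) = true → V u N k (9 * X w) (9 * Y w + j.val) ∈ I := by
      intro j hj
      have := ih ((0, j) :: w) (by rw [List.length_cons]; omega) (J6_ok _ _ hj hw) (by
        intro p hp hp0
        apply h p (sub _ _ hp)
        rw [List.length_cons, pow_succ] at hp0
        have : (X ((0, j) :: w) : ℝ) = 9 * X w := by simp [X]
        rw [this] at hp0
        linarith)
      simpa [X, Y] using this
    rw [V]
    exact J6_avg I hI (step 0 (by decide)) (step 2 (by decide)) (step 6 (by decide))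
      (step 8 (by decide))

theorem J6_1 (u : Plane → ℝ) (N : ℕ) (I : Set ℝ) (hI : Convex ℝ I)
    (corner : ∀ (w : List Letter), Ok w → ∀ (a b : Fin 2),
      (!₂[((X w : ℝ) + ((a : ℕ) : ℝ)) / 9 ^ w.length, ((Y w : ℝ) + ((b : ℕ) : ℝ)) / 9 ^ w.length]
      : Plane) ∈ K w)
    (sub : ∀ (l : Letter) (w : List Letter), K (l :: w) ⊆ K w) (k : ℕ) :
    ∀ (w : List Letter), k + w.length = N → Ok w →
      (∀ p ∈ K w, 9 ^ w.length * p 0 = X w + 1 → u p ∈ I) → V u N k (X w + 1) (Y w) ∈ I := by
  induction k with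
  | zero =>
    intro w hN hw h
    have hc := corner w hw 1 0
    rw [zero_add] at hN
    simp only [Fin.val_zero, Nat.cast_zero, add_zero, Fin.val_one, Nat.cast_one] at hc
    rw [V, ← hN]
    push_cast
    apply h _ hc
    simp only [PiLp.toLp_apply, Matrix.cons_val_zero]
    field_simp
  | succ k ih =>
    intro w hN hw h
    have step : ∀ j : Fin 9, okL (8, j) = true → V u N k (9 * (X w + 1)) (9 * Y w + j.val) ∈ I := by
      intro j hj
      have := ih ((8, j) :: w) (by rw [List.length_cons]; omega) (J6_ok _ _ hj hw) (by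
        intro p hp hp0
        apply h p (sub _ _ hp)
        rw [List.length_cons, pow_succ] at hp0
        have e : (8 : Fin 9).val = 8 := rfl
        have : (X ((8, j) :: w) : ℝ) = 9 * X w + 8 := by simp [X, e]
        rw [this] at hp0
        linarith)
      have e1 : X ((8, j) :: w) + 1 = 9 * (X w + 1) := by
        have e : (8 : Fin 9).val = 8 := rfl
        simp only [X, e]
        ring
      have e2 : Y ((8, j) :: w) = 9 * Y w + j.val := rfl
      rwa [e1, e2] at this
    rw [V]
    exact J6_avg I hI (step 0 (by decide)) (step 2 (by decide)) (step 6 (by decide))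
      (step 8 (by decide))

theorem J6_2 (u : Plane → ℝ) (N : ℕ) (I : Set ℝ) (hI : Convex ℝ I)
    (corner : ∀ (w : List Letter), Ok w → ∀ (a b : Fin 2),
      (!₂[((X w : ℝ) + ((a : ℕ) : ℝ)) / 9 ^ w.length, ((Y w : ℝ) + ((b : ℕ) : ℝ)) / 9 ^ w.length]
      : Plane) ∈ K w)
    (sub : ∀ (l : Letter) (w : List Letter), K (l :: w) ⊆ K w) (k : ℕ) :
    ∀ (w : List Letter), k + w.length = N → Ok w →
      (∀ p ∈ K w, u p ∈ I) → H u N k (X w) (Y w) ∈ I := by
  induction k with
  | zero =>
    intro w hN hw h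
    have hc := corner w hw 0 0
    rw [zero_add] at hN
    simp only [Fin.val_zero, Nat.cast_zero, add_zero] at hc
    rw [H, ← hN]
    exact h _ hc
  | succ k ih =>
    intro w hN hw h
    have step : ∀ j : Fin 9, okL (j, 0) = true → H u N k (9 * X w + j.val) (9 * Y w) ∈ I := by
      intro j hj
      have := ih ((j, 0) :: w) (by rw [List.length_cons]; omega) (J6_ok _ _ hj hw) (by
        intro p hp
        exact h p (sub _ _ hp))
      simpa [X, Y] using this
    rw [H]
    exact J6_avg I hI (step 0 (by decide)) (step 2 (by decide)) (step 6 (by decide))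
      (step 8 (by decide))

theorem J6_3 (u : Plane → ℝ) (N : ℕ) (I : Set ℝ) (hI : Convex ℝ I)
    (corner : ∀ (w : List Letter), Ok w → ∀ (a b : Fin 2),
      (!₂[((X w : ℝ) + ((a : ℕ) : ℝ)) / 9 ^ w.length, ((Y w : ℝ) + ((b : ℕ) : ℝ)) / 9 ^ w.length]
      : Plane) ∈ K w)
    (sub : ∀ (l : Letter) (w : List Letter), K (l :: w) ⊆ K w) (k : ℕ) :
    ∀ (w : List Letter), k + w.length = N → Ok w →
      (∀ p ∈ K w, u p ∈ I) → H u N k (X w) (Y w + 1) ∈ I := by
  induction k with
  | zero =>
    intro w hN hw h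
    have hc := corner w hw 0 1
    rw [zero_add] at hN
    simp only [Fin.val_zero, Nat.cast_zero, add_zero, Fin.val_one, Nat.cast_one] at hc
    rw [H, ← hN]
    push_cast
    exact h _ hc
  | succ k ih =>
    intro w hN hw h
    have step : ∀ j : Fin 9, okL (j, 8) = true → H u N k (9 * X w + j.val) (9 * (Y w + 1)) ∈ I := by
      intro j hj
      have := ih ((j, 8) :: w) (by rw [List.length_cons]; omega) (J6_ok _ _ hj hw) (by
        intro p hp
        exact h p (sub _ _ hp))
      have e1 : Y ((j, 8) :: w) + 1 = 9 * (Y w + 1) := by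
        have e : (8 : Fin 9).val = 8 := rfl
        simp only [Y, e]
        ring
      have e2 : X ((j, 8) :: w) = 9 * X w + j.val := rfl
      rwa [e1, e2] at this
    rw [H]
    exact J6_avg I hI (step 0 (by decide)) (step 2 (by decide)) (step 6 (by decide))
      (step 8 (by decide))

theorem J6 (u : Plane → ℝ) (N : ℕ) (I : Set ℝ) (hI : Convex ℝ I)
    (corner : ∀ (w : List Letter), Ok w → ∀ (a b : Fin 2),
      (!₂[((X w : ℝ) + ((a : ℕ) : ℝ)) / 9 ^ w.length, ((Y w : ℝ) + ((b : ℕ) : ℝ)) / 9 ^ w.length]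
      : Plane) ∈ K w)
    (sub : ∀ (l : Letter) (w : List Letter), K (l :: w) ⊆ K w)
    (w : List Letter)
    (hN : w.length ≤ N) (hw : Ok w) (i : Fin 4)
    (h : ∀ p ∈ K w,
      (i = 0 → 9 ^ w.length * p 0 = X w) → (i = 1 → 9 ^ w.length * p 0 = X w + 1) →
      u p ∈ I) : U u N w i ∈ I := by
  have hk : (N - w.length) + w.length = N := by omega
  fin_cases i
  · exact J6_0 u N I hI corner sub _ w hk hw (fun p hp hp0 => h p hp (fun _ => hp0)
      (fun h01 => by simp at h01))
  · exact J6_1 u N I hI corner sub _ w hk hw (fun p hp hp0 => h p hp (fun h01 => by simp at h01)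
      (fun _ => hp0))
  · exact J6_2 u N I hI corner sub _ w hk hw (fun p hp => h p hp (fun h01 => by simp at h01)
      (fun h01 => by simp at h01))
  · exact J6_3 u N I hI corner sub _ w hk hw (fun p hp => h p hp (fun h01 => by simp at h01)
      (fun h01 => by simp at h01))

end Pool.Agent.MP049a2b
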