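import Mathlib

/-!
The standard Sierpinski carpet, quasisymmetric homeomorphisms and conformal dimension.
-/

namespace Pool.Agent.MP049a2b

open scoped ENNReal NNReal

/-- the Euclidean plane -/
abbrev Plane := EuclideanSpace ℝ (Fin 2)

/-- `stage n` is the union of the `8 ^ n` closed squares of side `3 ^ (-n)` that are left after
`n` steps of the construction of the carpet. -/
def stage : ℕ → Set Plane
  | 0 => {p | ∀ i, 0 ≤ p i ∧ p i ≤ 1}
  | n + 1 => {p | ∃ q ∈ stage n, ∃ a : Fin 2 → Fin 3,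
      ¬ (a 0 = 1 ∧ a 1 = 1) ∧ ∀ i, p i = (q i + ((a i : ℕ) : ℝ)) / 3}

/-- the standard Sierpinski carpet, a subset of the Euclidean plane -/
def carpet : Set Plane := ⋂ n, stage n

/-- A homeomorphism is quasisymmetric if there is a homeomorphism `η` of `[0, ∞)` such that
`d(x, a) ≤ t d(x, b)` implies `d(f x, f a) ≤ η(t) d(f x, f b)`. -/
def Quasisymmetric {X Y : Type} [MetricSpace X] [MetricSpace Y] (f : X ≃ₜ Y) : Prop :=
  ∃ η : ℝ≥0 ≃ₜ ℝ≥0, ∀ (x a b : X) (t : ℝ≥0),
    dist x a ≤ t * dist x b → dist (f x) (f a) ≤ η t * dist (f x) (f b)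

/-- the conformal dimension of a metric space: the infimum of the Hausdorff dimensions of all
metric spaces that are quasisymmetrically homeomorphic to it -/
noncomputable def confDim (X : Type) [MetricSpace X] : ℝ≥0∞ :=
  ⨅ (Y : Type) (_ : MetricSpace Y) (_ : ∃ f : X ≃ₜ Y, Quasisymmetric f),
    dimH (Set.univ : Set Y)

end Pool.Agent.MP049a2b
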