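import Pool.Agent.MP049a2b.Carpet

/-!
The flow patterns on the carpet, its cells, and the side averages of a function.
-/

namespace Pool.Agent.MP049a2b

open scoped ENNReal NNReal

/-- positions of the subsquares of a square divided into 81 parts -/
abbrev Letter := Fin 9 × Fin 9

/-- the 64 subsquares that survive two steps of the construction -/
def okL (l : Letter) : Bool :=
  !(l.1.val / 3 == 1 && l.2.val / 3 == 1) && !(l.1.val % 3 == 1 && l.2.val % 3 == 1)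

/-- source side of a type; sides are 0 = left, 1 = right, 2 = bottom, 3 = top -/
def src : Fin 12 → Fin 4 := ![0, 1, 2, 3, 0, 0, 1, 1, 2, 2, 3, 3]

/-- target side of a type -/
def dst : Fin 12 → Fin 4 := ![1, 0, 3, 2, 3, 2, 3, 2, 0, 1, 0, 1]

/-- the flow pattern of every type: a list of (subsquare, type, amount in units of 1/12) -/
def table : Fin 12 → List (Letter × Fin 12 × ℕ) := ![
  [((0, 0), 0, 3), ((0, 2), 0, 2), ((0, 2), 4, 1), ((0, 3), 9, 1), ((0, 5), 11, 1),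
   ((0, 6), 0, 2), ((0, 6), 5, 1), ((0, 8), 0, 3), ((1, 0), 0, 3), ((1, 2), 0, 2),
   ((1, 3), 0, 1), ((1, 5), 0, 1), ((1, 6), 0, 2), ((1, 8), 0, 3), ((2, 0), 0, 3),
   ((2, 2), 0, 2), ((2, 2), 11, 1), ((2, 3), 5, 1), ((2, 5), 4, 1), ((2, 6), 0, 2),
   ((2, 6), 9, 1), ((2, 8), 0, 3), ((3, 0), 0, 3), ((3, 2), 0, 3), ((3, 6), 0, 3),
   ((3, 8), 0, 3), ((4, 0), 0, 3), ((4, 2), 0, 3), ((4, 6), 0, 3), ((4, 8), 0, 3),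
   ((5, 0), 0, 3), ((5, 2), 0, 3), ((5, 6), 0, 3), ((5, 8), 0, 3), ((6, 0), 0, 3),
   ((6, 2), 0, 2), ((6, 2), 4, 1), ((6, 3), 9, 1), ((6, 5), 11, 1), ((6, 6), 0, 2),
   ((6, 6), 5, 1), ((6, 8), 0, 3), ((7, 0), 0, 3), ((7, 2), 0, 2), ((7, 3), 0, 1),
   ((7, 5), 0, 1), ((7, 6), 0, 2), ((7, 8), 0, 3), ((8, 0), 0, 3), ((8, 2), 0, 2),
   ((8, 2), 11, 1), ((8, 3), 5, 1), ((8, 5), 4, 1), ((8, 6), 0, 2), ((8, 6), 9, 1),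
   ((8, 8), 0, 3)],
  [((0, 0), 1, 3), ((0, 2), 1, 2), ((0, 2), 10, 1), ((0, 3), 7, 1), ((0, 5), 6, 1),
   ((0, 6), 1, 2), ((0, 6), 8, 1), ((0, 8), 1, 3), ((1, 0), 1, 3), ((1, 2), 1, 2),
   ((1, 3), 1, 1), ((1, 5), 1, 1), ((1, 6), 1, 2), ((1, 8), 1, 3), ((2, 0), 1, 3),
   ((2, 2), 1, 2), ((2, 2), 6, 1), ((2, 3), 8, 1), ((2, 5), 10, 1), ((2, 6), 1, 2),
   ((2, 6), 7, 1), ((2, 8), 1, 3), ((3, 0), 1, 3), ((3, 2), 1, 3), ((3, 6), 1, 3),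
   ((3, 8), 1, 3), ((4, 0), 1, 3), ((4, 2), 1, 3), ((4, 6), 1, 3), ((4, 8), 1, 3),
   ((5, 0), 1, 3), ((5, 2), 1, 3), ((5, 6), 1, 3), ((5, 8), 1, 3), ((6, 0), 1, 3),
   ((6, 2), 1, 2), ((6, 2), 10, 1), ((6, 3), 7, 1), ((6, 5), 6, 1), ((6, 6), 1, 2),
   ((6, 6), 8, 1), ((6, 8), 1, 3), ((7, 0), 1, 3), ((7, 2), 1, 2), ((7, 3), 1, 1),
   ((7, 5), 1, 1), ((7, 6), 1, 2), ((7, 8), 1, 3), ((8, 0), 1, 3), ((8, 2), 1, 2),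
   ((8, 2), 6, 1), ((8, 3), 8, 1), ((8, 5), 10, 1), ((8, 6), 1, 2), ((8, 6), 7, 1),
   ((8, 8), 1, 3)],
  [((0, 0), 2, 3), ((0, 1), 2, 3), ((0, 2), 2, 3), ((0, 3), 2, 3), ((0, 4), 2, 3),
   ((0, 5), 2, 3), ((0, 6), 2, 3), ((0, 7), 2, 3), ((0, 8), 2, 3), ((2, 0), 2, 2),
   ((2, 0), 9, 1), ((2, 1), 2, 2), ((2, 2), 2, 2), ((2, 2), 6, 1), ((2, 3), 2, 3),
   ((2, 4), 2, 3), ((2, 5), 2, 3), ((2, 6), 2, 2), ((2, 6), 9, 1), ((2, 7), 2, 2),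
   ((2, 8), 2, 2), ((2, 8), 6, 1), ((3, 0), 4, 1), ((3, 1), 2, 1), ((3, 2), 8, 1),
   ((3, 6), 4, 1), ((3, 7), 2, 1), ((3, 8), 8, 1), ((5, 0), 6, 1), ((5, 1), 2, 1),
   ((5, 2), 9, 1), ((5, 6), 6, 1), ((5, 7), 2, 1), ((5, 8), 9, 1), ((6, 0), 2, 2),
   ((6, 0), 8, 1), ((6, 1), 2, 2), ((6, 2), 2, 2), ((6, 2), 4, 1), ((6, 3), 2, 3),
   ((6, 4), 2, 3), ((6, 5), 2, 3), ((6, 6), 2, 2), ((6, 6), 8, 1), ((6, 7), 2, 2),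
   ((6, 8), 2, 2), ((6, 8), 4, 1), ((8, 0), 2, 3), ((8, 1), 2, 3), ((8, 2), 2, 3),
   ((8, 3), 2, 3), ((8, 4), 2, 3), ((8, 5), 2, 3), ((8, 6), 2, 3), ((8, 7), 2, 3),
   ((8, 8), 2, 3)],
  [((0, 0), 3, 3), ((0, 1), 3, 3), ((0, 2), 3, 3), ((0, 3), 3, 3), ((0, 4), 3, 3),
   ((0, 5), 3, 3), ((0, 6), 3, 3), ((0, 7), 3, 3), ((0, 8), 3, 3), ((2, 0), 3, 2),
   ((2, 0), 7, 1), ((2, 1), 3, 2), ((2, 2), 3, 2), ((2, 2), 11, 1), ((2, 3), 3, 3),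
   ((2, 4), 3, 3), ((2, 5), 3, 3), ((2, 6), 3, 2), ((2, 6), 7, 1), ((2, 7), 3, 2),
   ((2, 8), 3, 2), ((2, 8), 11, 1), ((3, 0), 10, 1), ((3, 1), 3, 1), ((3, 2), 5, 1),
   ((3, 6), 10, 1), ((3, 7), 3, 1), ((3, 8), 5, 1), ((5, 0), 11, 1), ((5, 1), 3, 1),
   ((5, 2), 7, 1), ((5, 6), 11, 1), ((5, 7), 3, 1), ((5, 8), 7, 1), ((6, 0), 3, 2),
   ((6, 0), 5, 1), ((6, 1), 3, 2), ((6, 2), 3, 2), ((6, 2), 10, 1), ((6, 3), 3, 3),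
   ((6, 4), 3, 3), ((6, 5), 3, 3), ((6, 6), 3, 2), ((6, 6), 5, 1), ((6, 7), 3, 2),
   ((6, 8), 3, 2), ((6, 8), 10, 1), ((8, 0), 3, 3), ((8, 1), 3, 3), ((8, 2), 3, 3),
   ((8, 3), 3, 3), ((8, 4), 3, 3), ((8, 5), 3, 3), ((8, 6), 3, 3), ((8, 7), 3, 3),
   ((8, 8), 3, 3)],
  [((0, 0), 0, 3), ((0, 2), 0, 2), ((0, 2), 4, 1), ((0, 3), 9, 1), ((0, 6), 0, 3),
   ((0, 8), 4, 3), ((1, 0), 0, 3), ((1, 2), 0, 2), ((1, 3), 0, 1), ((1, 6), 0, 3),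
   ((2, 0), 0, 3), ((2, 2), 0, 2), ((2, 2), 11, 1), ((2, 3), 5, 1), ((2, 6), 4, 3),
   ((2, 7), 2, 3), ((2, 8), 2, 3), ((3, 0), 0, 3), ((3, 2), 0, 3), ((4, 0), 0, 3),
   ((4, 2), 0, 3), ((5, 0), 0, 3), ((5, 2), 0, 3), ((6, 0), 0, 3), ((6, 2), 4, 3),
   ((6, 3), 2, 3), ((6, 4), 2, 3), ((6, 5), 2, 3), ((6, 6), 2, 3), ((6, 7), 2, 3),
   ((6, 8), 2, 3), ((7, 0), 0, 3), ((8, 0), 4, 3), ((8, 1), 2, 3), ((8, 2), 2, 3),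
   ((8, 3), 2, 3), ((8, 4), 2, 3), ((8, 5), 2, 3), ((8, 6), 2, 3), ((8, 7), 2, 3),
   ((8, 8), 2, 3)],
  [((0, 0), 5, 3), ((0, 2), 0, 3), ((0, 5), 11, 1), ((0, 6), 0, 2), ((0, 6), 5, 1),
   ((0, 8), 0, 3), ((1, 2), 0, 3), ((1, 5), 0, 1), ((1, 6), 0, 2), ((1, 8), 0, 3),
   ((2, 0), 3, 3), ((2, 1), 3, 3), ((2, 2), 5, 3), ((2, 5), 4, 1), ((2, 6), 0, 2),
   ((2, 6), 9, 1), ((2, 8), 0, 3), ((3, 6), 0, 3), ((3, 8), 0, 3), ((4, 6), 0, 3),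
   ((4, 8), 0, 3), ((5, 6), 0, 3), ((5, 8), 0, 3), ((6, 0), 3, 3), ((6, 1), 3, 3),
   ((6, 2), 3, 3), ((6, 3), 3, 3), ((6, 4), 3, 3), ((6, 5), 3, 3), ((6, 6), 5, 3),
   ((6, 8), 0, 3), ((7, 8), 0, 3), ((8, 0), 3, 3), ((8, 1), 3, 3), ((8, 2), 3, 3),
   ((8, 3), 3, 3), ((8, 4), 3, 3), ((8, 5), 3, 3), ((8, 6), 3, 3), ((8, 7), 3, 3),
   ((8, 8), 5, 3)],
  [((0, 0), 6, 3), ((0, 1), 2, 3), ((0, 2), 2, 3), ((0, 3), 2, 3), ((0, 4), 2, 3),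
   ((0, 5), 2, 3), ((0, 6), 2, 3), ((0, 7), 2, 3), ((0, 8), 2, 3), ((1, 0), 1, 3),
   ((2, 0), 1, 3), ((2, 2), 6, 3), ((2, 3), 2, 3), ((2, 4), 2, 3), ((2, 5), 2, 3),
   ((2, 6), 2, 3), ((2, 7), 2, 3), ((2, 8), 2, 3), ((3, 0), 1, 3), ((3, 2), 1, 3),
   ((4, 0), 1, 3), ((4, 2), 1, 3), ((5, 0), 1, 3), ((5, 2), 1, 3), ((6, 0), 1, 3),
   ((6, 2), 1, 2), ((6, 2), 10, 1), ((6, 3), 7, 1), ((6, 6), 6, 3), ((6, 7), 2, 3),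
   ((6, 8), 2, 3), ((7, 0), 1, 3), ((7, 2), 1, 2), ((7, 3), 1, 1), ((7, 6), 1, 3),
   ((8, 0), 1, 3), ((8, 2), 1, 2), ((8, 2), 6, 1), ((8, 3), 8, 1), ((8, 6), 1, 3),
   ((8, 8), 6, 3)],
  [((0, 0), 3, 3), ((0, 1), 3, 3), ((0, 2), 3, 3), ((0, 3), 3, 3), ((0, 4), 3, 3),
   ((0, 5), 3, 3), ((0, 6), 3, 3), ((0, 7), 3, 3), ((0, 8), 7, 3), ((1, 8), 1, 3),
   ((2, 0), 3, 3), ((2, 1), 3, 3), ((2, 2), 3, 3), ((2, 3), 3, 3), ((2, 4), 3, 3),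
   ((2, 5), 3, 3), ((2, 6), 7, 3), ((2, 8), 1, 3), ((3, 6), 1, 3), ((3, 8), 1, 3),
   ((4, 6), 1, 3), ((4, 8), 1, 3), ((5, 6), 1, 3), ((5, 8), 1, 3), ((6, 0), 3, 3),
   ((6, 1), 3, 3), ((6, 2), 7, 3), ((6, 5), 6, 1), ((6, 6), 1, 2), ((6, 6), 8, 1),
   ((6, 8), 1, 3), ((7, 2), 1, 3), ((7, 5), 1, 1), ((7, 6), 1, 2), ((7, 8), 1, 3),
   ((8, 0), 7, 3), ((8, 2), 1, 3), ((8, 5), 10, 1), ((8, 6), 1, 2), ((8, 6), 7, 1),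
   ((8, 8), 1, 3)],
  [((0, 0), 8, 3), ((0, 2), 1, 3), ((0, 6), 1, 3), ((0, 8), 1, 3), ((1, 2), 1, 3),
   ((1, 6), 1, 3), ((1, 8), 1, 3), ((2, 0), 2, 3), ((2, 1), 2, 3), ((2, 2), 8, 3),
   ((2, 6), 1, 3), ((2, 8), 1, 3), ((3, 6), 1, 3), ((3, 8), 1, 3), ((4, 6), 1, 3),
   ((4, 8), 1, 3), ((5, 0), 6, 1), ((5, 1), 2, 1), ((5, 2), 9, 1), ((5, 6), 1, 3),
   ((5, 8), 1, 3), ((6, 0), 2, 2), ((6, 0), 8, 1), ((6, 1), 2, 2), ((6, 2), 2, 2),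
   ((6, 2), 4, 1), ((6, 3), 2, 3), ((6, 4), 2, 3), ((6, 5), 2, 3), ((6, 6), 8, 3),
   ((6, 8), 1, 3), ((7, 8), 1, 3), ((8, 0), 2, 3), ((8, 1), 2, 3), ((8, 2), 2, 3),
   ((8, 3), 2, 3), ((8, 4), 2, 3), ((8, 5), 2, 3), ((8, 6), 2, 3), ((8, 7), 2, 3),
   ((8, 8), 8, 3)],
  [((0, 0), 2, 3), ((0, 1), 2, 3), ((0, 2), 2, 3), ((0, 3), 2, 3), ((0, 4), 2, 3),
   ((0, 5), 2, 3), ((0, 6), 2, 3), ((0, 7), 2, 3), ((0, 8), 9, 3), ((1, 8), 0, 3),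
   ((2, 0), 2, 2), ((2, 0), 9, 1), ((2, 1), 2, 2), ((2, 2), 2, 2), ((2, 2), 6, 1),
   ((2, 3), 2, 3), ((2, 4), 2, 3), ((2, 5), 2, 3), ((2, 6), 9, 3), ((2, 8), 0, 3),
   ((3, 0), 4, 1), ((3, 1), 2, 1), ((3, 2), 8, 1), ((3, 6), 0, 3), ((3, 8), 0, 3),
   ((4, 6), 0, 3), ((4, 8), 0, 3), ((5, 6), 0, 3), ((5, 8), 0, 3), ((6, 0), 2, 3),
   ((6, 1), 2, 3), ((6, 2), 9, 3), ((6, 6), 0, 3), ((6, 8), 0, 3), ((7, 2), 0, 3),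
   ((7, 6), 0, 3), ((7, 8), 0, 3), ((8, 0), 9, 3), ((8, 2), 0, 3), ((8, 6), 0, 3),
   ((8, 8), 0, 3)],
  [((0, 0), 1, 3), ((0, 2), 1, 3), ((0, 6), 1, 3), ((0, 8), 10, 3), ((1, 0), 1, 3),
   ((1, 2), 1, 3), ((1, 6), 1, 3), ((2, 0), 1, 3), ((2, 2), 1, 3), ((2, 6), 10, 3),
   ((2, 7), 3, 3), ((2, 8), 3, 3), ((3, 0), 1, 3), ((3, 2), 1, 3), ((4, 0), 1, 3),
   ((4, 2), 1, 3), ((5, 0), 1, 3), ((5, 2), 1, 3), ((5, 6), 11, 1), ((5, 7), 3, 1),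
   ((5, 8), 7, 1), ((6, 0), 1, 3), ((6, 2), 10, 3), ((6, 3), 3, 3), ((6, 4), 3, 3),
   ((6, 5), 3, 3), ((6, 6), 3, 2), ((6, 6), 5, 1), ((6, 7), 3, 2), ((6, 8), 3, 2),
   ((6, 8), 10, 1), ((7, 0), 1, 3), ((8, 0), 10, 3), ((8, 1), 3, 3), ((8, 2), 3, 3),
   ((8, 3), 3, 3), ((8, 4), 3, 3), ((8, 5), 3, 3), ((8, 6), 3, 3), ((8, 7), 3, 3),
   ((8, 8), 3, 3)],
  [((0, 0), 11, 3), ((0, 1), 3, 3), ((0, 2), 3, 3), ((0, 3), 3, 3), ((0, 4), 3, 3),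
   ((0, 5), 3, 3), ((0, 6), 3, 3), ((0, 7), 3, 3), ((0, 8), 3, 3), ((1, 0), 0, 3),
   ((2, 0), 0, 3), ((2, 2), 11, 3), ((2, 3), 3, 3), ((2, 4), 3, 3), ((2, 5), 3, 3),
   ((2, 6), 3, 2), ((2, 6), 7, 1), ((2, 7), 3, 2), ((2, 8), 3, 2), ((2, 8), 11, 1),
   ((3, 0), 0, 3), ((3, 2), 0, 3), ((3, 6), 10, 1), ((3, 7), 3, 1), ((3, 8), 5, 1),
   ((4, 0), 0, 3), ((4, 2), 0, 3), ((5, 0), 0, 3), ((5, 2), 0, 3), ((6, 0), 0, 3),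
   ((6, 2), 0, 3), ((6, 6), 11, 3), ((6, 7), 3, 3), ((6, 8), 3, 3), ((7, 0), 0, 3),
   ((7, 2), 0, 3), ((7, 6), 0, 3), ((8, 0), 0, 3), ((8, 2), 0, 3), ((8, 6), 0, 3),
   ((8, 8), 11, 3)]]

/-- amount (in units of 1/12) of type `t'` in the subsquare `l` of the pattern `t` -/
def P (t : Fin 12) (l : Letter) (t' : Fin 12) : ℕ :=
  ((table t).map (fun e => if e.1 = l ∧ e.2.1 = t' then e.2.2 else 0)).sum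

/-- total amount (in units of 1/12) in the subsquare `l` of the pattern `t` -/
def A (t : Fin 12) (l : Letter) : ℕ :=
  ((table t).map (fun e => if e.1 = l then e.2.2 else 0)).sum

/-- amounts of the types in the cell `w`; the head of the list is the finest letter -/
noncomputable def c : List Letter → Fin 12 → ℝ
  | [] => fun t => if t = 0 then 1 else 0
  | l :: w => fun t' => ∑ t, c w t * (P t l t' : ℝ) / 12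

/-- total flow through the cell `w` -/
noncomputable def C (w : List Letter) : ℝ := ∑ t, c w t

/-- horizontal index of the cell `w` -/
def X : List Letter → ℕ
  | [] => 0
  | l :: w => 9 * X w + l.1.val

/-- vertical index of the cell `w` -/
def Y : List Letter → ℕ
  | [] => 0
  | l :: w => 9 * Y w + l.2.val

/-- all letters survive -/
def Ok (w : List Letter) : Prop := ∀ l ∈ w, okL l = true

/-- part of the carpet in the closed cell `w` -/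
def K (w : List Letter) : Set Plane :=
  {p | p ∈ carpet ∧ (X w : ℝ) ≤ 9 ^ w.length * p 0 ∧ 9 ^ w.length * p 0 ≤ X w + 1 ∧
    (Y w : ℝ) ≤ 9 ^ w.length * p 1 ∧ 9 ^ w.length * p 1 ≤ Y w + 1}

/-- averages of `u` over vertical edges -/
noncomputable def V (u : Plane → ℝ) (N : ℕ) : ℕ → ℕ → ℕ → ℝ
  | 0, x, y => u !₂[(x : ℝ) / 9 ^ N, (y : ℝ) / 9 ^ N]
  | k + 1, x, y => (V u N k (9 * x) (9 * y) + V u N k (9 * x) (9 * y + 2)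
      + V u N k (9 * x) (9 * y + 6) + V u N k (9 * x) (9 * y + 8)) / 4

/-- averages of `u` over horizontal edges -/
noncomputable def H (u : Plane → ℝ) (N : ℕ) : ℕ → ℕ → ℕ → ℝ
  | 0, x, y => u !₂[(x : ℝ) / 9 ^ N, (y : ℝ) / 9 ^ N]
  | k + 1, x, y => (H u N k (9 * x) (9 * y) + H u N k (9 * x + 2) (9 * y)
      + H u N k (9 * x + 6) (9 * y) + H u N k (9 * x + 8) (9 * y)) / 4

/-- side values of the cell `w` -/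
noncomputable def U (u : Plane → ℝ) (N : ℕ) (w : List Letter) : Fin 4 → ℝ :=
  ![V u N (N - w.length) (X w) (Y w), V u N (N - w.length) (X w + 1) (Y w),
    H u N (N - w.length) (X w) (Y w), H u N (N - w.length) (X w) (Y w + 1)]

/-- weighted flux through the cell `w` -/
noncomputable def F (u : Plane → ℝ) (N : ℕ) (w : List Letter) : ℝ :=
  ∑ t, c w t * (U u N w (dst t) - U u N w (src t))

end Pool.Agent.MP049a2b
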