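import Pool.Agent.MP049a2b.Defs

namespace Pool.Agent.MP049a2b

open scoped ENNReal NNReal

theorem A_le_28119 : ∀ (t : Fin 12) (l : Letter), A t l ≤ 3 := by decide +kernel

theorem A_card_28119 : ∀ t : Fin 12,
    ((Finset.univ.filter (fun l : Letter => A t l = 3)).card = 32 ∧
      (Finset.univ.filter (fun l : Letter => A t l = 2)).card = 4 ∧
      (Finset.univ.filter (fun l : Letter => A t l = 1)).card = 12) ∨
    ((Finset.univ.filter (fun l : Letter => A t l = 3)).card = 35 ∧
      (Finset.univ.filter (fun l : Letter => A t l = 2)).card = 1 ∧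
      (Finset.univ.filter (fun l : Letter => A t l = 1)).card = 3) := by decide +kernel

theorem J2 (s : ℝ) (hs : 1 < s)
    (h1 : 32 * (1 / 4 : ℝ) ^ s + 4 * (1 / 6 : ℝ) ^ s + 12 * (1 / 12 : ℝ) ^ s ≤ 1)
    (h2 : 35 * (1 / 4 : ℝ) ^ s + (1 / 6 : ℝ) ^ s + 3 * (1 / 12 : ℝ) ^ s ≤ 1) (t : Fin 12) :
    ∑ l : Letter, ((A t l : ℝ) / 12) ^ s ≤ 1 := by
  have hval : ∀ l : Letter, ((A t l : ℝ) / 12) ^ s =
      (if A t l = 3 then (1 / 4 : ℝ) ^ s else 0) + (if A t l = 2 then (1 / 6 : ℝ) ^ s else 0) +
        (if A t l = 1 then (1 / 12 : ℝ) ^ s else 0) := by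
    intro l
    have hle := A_le_28119 t l
    have hcases : A t l = 0 ∨ A t l = 1 ∨ A t l = 2 ∨ A t l = 3 := by omega
    rcases hcases with h | h | h | h
    · rw [h, if_neg (by norm_num), if_neg (by norm_num), if_neg (by norm_num)]
      rw [Nat.cast_zero, zero_div, Real.zero_rpow (by linarith)]
      norm_num
    · rw [h, if_neg (by norm_num), if_neg (by norm_num), if_pos rfl]
      norm_num
    · rw [h, if_neg (by norm_num), if_pos rfl, if_neg (by norm_num)]
      norm_num
    · rw [h, if_pos rfl, if_neg (by norm_num), if_neg (by norm_num)]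
      norm_num
  have hsum : ∑ l : Letter, ((A t l : ℝ) / 12) ^ s =
      ((Finset.univ.filter (fun l : Letter => A t l = 3)).card : ℝ) * (1 / 4 : ℝ) ^ s +
      ((Finset.univ.filter (fun l : Letter => A t l = 2)).card : ℝ) * (1 / 6 : ℝ) ^ s +
      ((Finset.univ.filter (fun l : Letter => A t l = 1)).card : ℝ) * (1 / 12 : ℝ) ^ s := by
    rw [Finset.sum_congr rfl (fun l _ => hval l), Finset.sum_add_distrib,
      Finset.sum_add_distrib, ← Finset.sum_filter, ← Finset.sum_filter, ← Finset.sum_filter,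
      Finset.sum_const, Finset.sum_const, Finset.sum_const, nsmul_eq_mul, nsmul_eq_mul,
      nsmul_eq_mul]
  rw [hsum]
  rcases A_card_28119 t with ⟨e3, e2, e1⟩ | ⟨e3, e2, e1⟩
  · rw [e3, e2, e1]
    push_cast
    exact h1
  · rw [e3, e2, e1]
    push_cast
    linarith

theorem J2b_aux (l : Letter) (L : List (Letter × Fin 12 × ℕ)) :
    ∑ t' : Fin 12, (L.map (fun e => if e.1 = l ∧ e.2.1 = t' then e.2.2 else 0)).sum =
      (L.map (fun e => if e.1 = l then e.2.2 else 0)).sum := by
  induction L with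
  | nil => simp
  | cons e L ih =>
    simp only [List.map_cons, List.sum_cons, Finset.sum_add_distrib, ih]
    congr 1
    by_cases h : e.1 = l
    · simp [h]
    · simp [h]

theorem J2b (t : Fin 12) (l : Letter) : ∑ t' : Fin 12, P t l t' = A t l := by
  unfold P A
  exact J2b_aux l (table t)

theorem table_ok : ∀ t : Fin 12, ∀ e ∈ table t, okL e.1 = true := by decide +kernel

theorem J2c (t : Fin 12) (l : Letter) (h : okL l = false) (t' : Fin 12) : P t l t' = 0 := by
  unfold P
  refine List.sum_eq_zero fun x hx => ?_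
  obtain ⟨e, he, rfl⟩ := List.mem_map.mp hx
  have h1 := table_ok t e he
  rw [if_neg]
  rintro ⟨h2, -⟩
  rw [h2, h] at h1
  exact absurd h1 (by simp)

theorem J2d_aux (g : Letter → Fin 12 → ℝ) (L : List (Letter × Fin 12 × ℕ)) :
    ∑ l : Letter, ∑ t' : Fin 12,
      (((L.map (fun e => if e.1 = l ∧ e.2.1 = t' then e.2.2 else 0)).sum : ℕ) : ℝ) * g l t'
      = (L.map (fun e => (e.2.2 : ℝ) * g e.1 e.2.1)).sum := by
  induction L with
  | nil => simp
  | cons e L ih =>
    simp only [List.map_cons, List.sum_cons, Nat.cast_add, add_mul, Finset.sum_add_distrib, ih]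
    congr 1
    rw [Finset.sum_eq_single e.1]
    · rw [Finset.sum_eq_single e.2.1]
      · simp
      · intro b _ hb
        rw [if_neg]
        · simp
        · rintro ⟨-, h⟩
          exact hb h.symm
      · intro h; exact absurd (Finset.mem_univ _) h
    · intro b _ hb
      refine Finset.sum_eq_zero fun c _ => ?_
      rw [if_neg]
      · simp
      · rintro ⟨h, -⟩
        exact hb h.symm
    · intro h; exact absurd (Finset.mem_univ _) h

theorem J2d (t : Fin 12) (g : Letter → Fin 12 → ℝ) :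
    ∑ l : Letter, ∑ t' : Fin 12, (P t l t' : ℝ) * g l t'
      = ((table t).map (fun e => (e.2.2 : ℝ) * g e.1 e.2.1)).sum := by
  unfold P
  exact J2d_aux g (table t)

/-- side values of the subsquare `l` in terms of edge values -/
def side (E G : ℕ → ℕ → ℝ) (l : Letter) : Fin 4 → ℝ :=
  ![E l.1.val l.2.val, E (l.1.val + 1) l.2.val, G l.1.val l.2.val, G l.1.val (l.2.val + 1)]

/-- side values of the big square -/
noncomputable def outer (E G : ℕ → ℕ → ℝ) : Fin 4 → ℝ :=
  ![(E 0 0 + E 0 2 + E 0 6 + E 0 8) / 4, (E 9 0 + E 9 2 + E 9 6 + E 9 8) / 4,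
    (G 0 0 + G 2 0 + G 6 0 + G 8 0) / 4, (G 0 9 + G 2 9 + G 6 9 + G 8 9) / 4]

theorem tab_t0 (E G : ℕ → ℕ → ℝ) :
    ((table 0).map (fun e => (e.2.2 : ℝ) *
      (side E G e.1 (dst e.2.1) - side E G e.1 (src e.2.1)))).sum
      = 12 * (outer E G (dst 0) - outer E G (src 0)) := by
  simp [table, side, outer, src, dst]
  ring

theorem tab_t1 (E G : ℕ → ℕ → ℝ) :
    ((table 1).map (fun e => (e.2.2 : ℝ) *
      (side E G e.1 (dst e.2.1) - side E G e.1 (src e.2.1)))).sum
      = 12 * (outer E G (dst 1) - outer E G (src 1)) := by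
  simp [table, side, outer, src, dst]
  ring

theorem tab_t2 (E G : ℕ → ℕ → ℝ) :
    ((table 2).map (fun e => (e.2.2 : ℝ) *
      (side E G e.1 (dst e.2.1) - side E G e.1 (src e.2.1)))).sum
      = 12 * (outer E G (dst 2) - outer E G (src 2)) := by
  simp [table, side, outer, src, dst]
  ring

theorem tab_t3 (E G : ℕ → ℕ → ℝ) :
    ((table 3).map (fun e => (e.2.2 : ℝ) *
      (side E G e.1 (dst e.2.1) - side E G e.1 (src e.2.1)))).sum
      = 12 * (outer E G (dst 3) - outer E G (src 3)) := by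
  simp [table, side, outer, src, dst]
  ring

theorem tab_t4 (E G : ℕ → ℕ → ℝ) :
    ((table 4).map (fun e => (e.2.2 : ℝ) *
      (side E G e.1 (dst e.2.1) - side E G e.1 (src e.2.1)))).sum
      = 12 * (outer E G (dst 4) - outer E G (src 4)) := by
  simp [table, side, outer, src, dst]
  ring

theorem tab_t5 (E G : ℕ → ℕ → ℝ) :
    ((table 5).map (fun e => (e.2.2 : ℝ) *
      (side E G e.1 (dst e.2.1) - side E G e.1 (src e.2.1)))).sum
      = 12 * (outer E G (dst 5) - outer E G (src 5)) := by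
  simp [table, side, outer, src, dst]
  ring

theorem tab_t6 (E G : ℕ → ℕ → ℝ) :
    ((table 6).map (fun e => (e.2.2 : ℝ) *
      (side E G e.1 (dst e.2.1) - side E G e.1 (src e.2.1)))).sum
      = 12 * (outer E G (dst 6) - outer E G (src 6)) := by
  simp [table, side, outer, src, dst]
  ring

theorem tab_t7 (E G : ℕ → ℕ → ℝ) :
    ((table 7).map (fun e => (e.2.2 : ℝ) *
      (side E G e.1 (dst e.2.1) - side E G e.1 (src e.2.1)))).sum
      = 12 * (outer E G (dst 7) - outer E G (src 7)) := by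
  simp [table, side, outer, src, dst]
  ring

theorem tab_t8 (E G : ℕ → ℕ → ℝ) :
    ((table 8).map (fun e => (e.2.2 : ℝ) *
      (side E G e.1 (dst e.2.1) - side E G e.1 (src e.2.1)))).sum
      = 12 * (outer E G (dst 8) - outer E G (src 8)) := by
  simp [table, side, outer, src, dst]
  ring

theorem tab_t9 (E G : ℕ → ℕ → ℝ) :
    ((table 9).map (fun e => (e.2.2 : ℝ) *
      (side E G e.1 (dst e.2.1) - side E G e.1 (src e.2.1)))).sum
      = 12 * (outer E G (dst 9) - outer E G (src 9)) := by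
  simp [table, side, outer, src, dst]
  ring

theorem tab_t10 (E G : ℕ → ℕ → ℝ) :
    ((table 10).map (fun e => (e.2.2 : ℝ) *
      (side E G e.1 (dst e.2.1) - side E G e.1 (src e.2.1)))).sum
      = 12 * (outer E G (dst 10) - outer E G (src 10)) := by
  simp [table, side, outer, src, dst]
  ring

theorem tab_t11 (E G : ℕ → ℕ → ℝ) :
    ((table 11).map (fun e => (e.2.2 : ℝ) *
      (side E G e.1 (dst e.2.1) - side E G e.1 (src e.2.1)))).sum
      = 12 * (outer E G (dst 11) - outer E G (src 11)) := by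
  simp [table, side, outer, src, dst]
  ring

theorem tab (E G : ℕ → ℕ → ℝ) (t : Fin 12) :
    ((table t).map (fun e => (e.2.2 : ℝ) *
      (side E G e.1 (dst e.2.1) - side E G e.1 (src e.2.1)))).sum
      = 12 * (outer E G (dst t) - outer E G (src t)) := by
  fin_cases t
  · exact tab_t0 E G
  · exact tab_t1 E G
  · exact tab_t2 E G
  · exact tab_t3 E G
  · exact tab_t4 E G
  · exact tab_t5 E G
  · exact tab_t6 E G
  · exact tab_t7 E G
  · exact tab_t8 E G
  · exact tab_t9 E G
  · exact tab_t10 E G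
  · exact tab_t11 E G

end Pool.Agent.MP049a2b
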