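import Pool.Agent.MP049a2b.Numbers
import Pool.Agent.MP049a2b.Patterns

namespace Pool.Agent.MP049a2b

open scoped ENNReal NNReal

/-! the flow -/

theorem J3b (w : List Letter) : ∀ t : Fin 12, 0 ≤ c w t := by
  induction w with
  | nil => intro t; simp only [c]; split_ifs <;> norm_num
  | cons l w ih =>
    intro t'
    simp only [c]
    exact Finset.sum_nonneg fun t _ => by
      have := ih t
      positivity

theorem C_cons (l : Letter) (w : List Letter) :
    C (l :: w) = ∑ t, c w t * ((A t l : ℝ) / 12) := by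
  unfold C
  simp only [c]
  rw [Finset.sum_comm]
  refine Finset.sum_congr rfl fun t _ => ?_
  rw [← J2b t l]
  push_cast
  rw [Finset.sum_div, Finset.mul_sum]
  exact Finset.sum_congr rfl fun t' _ => by ring

theorem J3 (s : ℝ) (hs : 1 < s) (h : ∀ t : Fin 12, ∑ l : Letter, ((A t l : ℝ) / 12) ^ s ≤ 1)
    (w : List Letter) : ∑ l : Letter, C (l :: w) ^ s ≤ C w ^ s := by
  simp only [C_cons]
  exact mink s hs (fun t l => (A t l : ℝ) / 12) (fun t l => by positivity) h (c w) (J3b w)

theorem J3d : C [] = 1 := by
  simp [C, c]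

theorem C_ne_zero_iff (w : List Letter) : C w ≠ 0 ↔ ∃ t, c w t ≠ 0 := by
  constructor
  · intro h
    by_contra hc
    push Not at hc
    exact h (Finset.sum_eq_zero fun t _ => hc t)
  · rintro ⟨t, ht⟩ h
    exact ht ((Finset.sum_eq_zero_iff_of_nonneg (fun t _ => J3b w t)).mp h t (Finset.mem_univ t))

theorem J3c (w : List Letter) (h : C w ≠ 0) : Ok w := by
  induction w with
  | nil => intro l hl; simp at hl
  | cons l w ih =>
    obtain ⟨t', ht'⟩ := (C_ne_zero_iff _).mp h
    simp only [c] at ht'
    obtain ⟨t, _, ht⟩ := Finset.exists_ne_zero_of_sum_ne_zero ht'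
    have h1 : c w t ≠ 0 := by
      intro h0; rw [h0] at ht; simp at ht
    have h2 : P t l t' ≠ 0 := by
      intro h0; rw [h0] at ht; simp at ht
    have hw := ih ((C_ne_zero_iff _).mpr ⟨t, h1⟩)
    intro m hm
    rcases List.mem_cons.mp hm with rfl | hm
    · cases hok : okL m with
      | true => rfl
      | false => exact absurd (J2c t m hok t') h2
    · exact hw m hm

theorem side_eq (u : Plane → ℝ) (N : ℕ) (w : List Letter) (l : Letter) :
    U u N (l :: w) = side (fun i j => V u N (N - (w.length + 1)) (9 * X w + i) (9 * Y w + j))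
      (fun i j => H u N (N - (w.length + 1)) (9 * X w + i) (9 * Y w + j)) l := rfl

theorem outer_eq (u : Plane → ℝ) (N : ℕ) (w : List Letter) (hw : w.length < N) :
    U u N w = outer (fun i j => V u N (N - (w.length + 1)) (9 * X w + i) (9 * Y w + j))
      (fun i j => H u N (N - (w.length + 1)) (9 * X w + i) (9 * Y w + j)) := by
  obtain ⟨k, hk⟩ : ∃ k, N - w.length = k + 1 := ⟨N - w.length - 1, by omega⟩
  have hk' : N - (w.length + 1) = k := by omega
  unfold U outer
  rw [hk, hk']
  simp only [V, H, mul_add, mul_one, add_zero]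

theorem J5 (u : Plane → ℝ) (N : ℕ) (w : List Letter) (hw : w.length < N) :
    F u N w = ∑ l : Letter, F u N (l :: w) := by
  set E : ℕ → ℕ → ℝ := fun i j => V u N (N - (w.length + 1)) (9 * X w + i) (9 * Y w + j) with hE
  set G : ℕ → ℕ → ℝ := fun i j => H u N (N - (w.length + 1)) (9 * X w + i) (9 * Y w + j) with hG
  have h1 : ∀ l : Letter, F u N (l :: w)
      = ∑ t, c w t / 12 * ∑ t', (P t l t' : ℝ) * (side E G l (dst t') - side E G l (src t')) := by
    intro l
    unfold F
    rw [side_eq]
    simp only [c, Finset.sum_mul, Finset.mul_sum]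
    rw [Finset.sum_comm]
    refine Finset.sum_congr rfl fun t _ => Finset.sum_congr rfl fun t' _ => ?_
    ring
  simp only [h1]
  rw [Finset.sum_comm]
  unfold F
  refine Finset.sum_congr rfl fun t _ => ?_
  rw [← Finset.mul_sum, J2d t (fun l t' => side E G l (dst t') - side E G l (src t')), tab,
    outer_eq u N w hw]
  ring

end Pool.Agent.MP049a2b
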