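import Pool.Agent.MP049a2b.Defs

namespace Pool.Agent.MP049a2b

open scoped ENNReal NNReal

theorem J7c1 (q : Plane) (hq : q ∈ carpet) (a : Fin 2 → Fin 3) (ha : ¬ (a 0 = 1 ∧ a 1 = 1))
    (p : Plane) (hp : ∀ i, p i = (q i + ((a i : ℕ) : ℝ)) / 3) : p ∈ carpet := by
  unfold carpet at hq ⊢
  rw [Set.mem_iInter] at hq ⊢
  intro n
  cases n with
  | zero =>
    intro i
    have h0 := hq 0 i
    have h1 : (((a i : ℕ) : ℝ)) ≤ 2 := by
      have : (a i : ℕ) ≤ 2 := by omega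
      exact_mod_cast this
    have h2 : (0 : ℝ) ≤ ((a i : ℕ) : ℝ) := Nat.cast_nonneg _
    rw [hp i]
    constructor
    · linarith [h0.1]
    · linarith [h0.2]
  | succ n => exact ⟨q, hq n, a, ha, hp⟩

/-- if `q` is in the carpet and `l` survives then `(q + l) / 9` is in the carpet -/
theorem J7c2 (q : Plane) (hq : q ∈ carpet) (l : Letter) (hl : okL l = true)
    (p : Plane) (h0 : p 0 = (q 0 + (l.1.val : ℝ)) / 9) (h1 : p 1 = (q 1 + (l.2.val : ℝ)) / 9) :
    p ∈ carpet := by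
  obtain ⟨⟨x, hx⟩, ⟨y, hy⟩⟩ := l
  simp only [okL, Bool.and_eq_true, Bool.not_eq_true', Bool.and_eq_false_iff, beq_eq_false_iff_ne,
    ne_eq] at hl
  simp only at h0 h1
  have hc := J7c1 q hq ![⟨x % 3, Nat.mod_lt _ (by norm_num)⟩, ⟨y % 3, Nat.mod_lt _ (by norm_num)⟩]
    (by
      rintro ⟨e1, e2⟩
      have e1' : x % 3 = 1 := congrArg Fin.val e1
      have e2' : y % 3 = 1 := congrArg Fin.val e2
      rcases hl.2 with h | h
      · exact h e1'
      · exact h e2')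
    (WithLp.toLp 2 ![(q 0 + ((x % 3 : ℕ) : ℝ)) / 3, (q 1 + ((y % 3 : ℕ) : ℝ)) / 3]) (by
      intro i
      fin_cases i <;> rfl)
  refine J7c1 _ hc ![⟨x / 3, by omega⟩, ⟨y / 3, by omega⟩] (by
      rintro ⟨e1, e2⟩
      have e1' : x / 3 = 1 := congrArg Fin.val e1
      have e2' : y / 3 = 1 := congrArg Fin.val e2
      rcases hl.1 with h | h
      · exact h e1'
      · exact h e2') p ?_
  have hx' : (x : ℝ) = 3 * ((x / 3 : ℕ) : ℝ) + ((x % 3 : ℕ) : ℝ) := by
    exact_mod_cast (Nat.div_add_mod x 3).symm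
  have hy' : (y : ℝ) = 3 * ((y / 3 : ℕ) : ℝ) + ((y % 3 : ℕ) : ℝ) := by
    exact_mod_cast (Nat.div_add_mod y 3).symm
  intro i
  fin_cases i
  · change p 0 = ((q 0 + ((x % 3 : ℕ) : ℝ)) / 3 + ((x / 3 : ℕ) : ℝ)) / 3
    rw [h0, hx']
    ring
  · change p 1 = ((q 1 + ((y % 3 : ℕ) : ℝ)) / 3 + ((y / 3 : ℕ) : ℝ)) / 3
    rw [h1, hy']
    ring

theorem J7c_stage (n : ℕ) : IsCompact (stage n) := by
  induction n with
  | zero =>
    have h : stage 0 = (EuclideanSpace.equiv (Fin 2) ℝ).toHomeomorph ⁻¹' (Set.Icc 0 1) := by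
      ext p
      constructor
      · intro hp
        exact ⟨fun i => (hp i).1, fun i => (hp i).2⟩
      · intro hp i
        exact ⟨hp.1 i, hp.2 i⟩
    rw [h]
    exact ((EuclideanSpace.equiv (Fin 2) ℝ).toHomeomorph.isCompact_preimage).2 isCompact_Icc
  | succ n ih =>
    have h : stage (n + 1) = ⋃ a ∈ {a : Fin 2 → Fin 3 | ¬ (a 0 = 1 ∧ a 1 = 1)},
        (fun q : Plane => (WithLp.toLp 2 (fun i => (q i + ((a i : ℕ) : ℝ)) / 3) : Plane)) '' stage n := by
      ext p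
      simp only [Set.mem_iUnion, Set.mem_image, Set.mem_ofPred_eq]
      constructor
      · rintro ⟨q, hq, a, ha, hp⟩
        refine ⟨a, ha, q, hq, ?_⟩
        ext i
        exact (hp i).symm
      · rintro ⟨a, ha, q, hq, rfl⟩
        exact ⟨q, hq, a, ha, fun i => rfl⟩
    rw [h]
    refine Set.Finite.isCompact_biUnion (Set.toFinite _) (fun a _ => ih.image ?_)
    refine (PiLp.continuous_toLp 2 _).comp ?_
    refine continuous_pi (fun i => ?_)
    have : Continuous (fun q : Plane => q i) := (EuclideanSpace.proj (𝕜 := ℝ) i).continuous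
    exact (this.add continuous_const).div_const 3

theorem J7c : IsCompact carpet := by
  unfold carpet
  exact (J7c_stage 0).of_isClosed_subset (isClosed_iInter (fun n => (J7c_stage n).isClosed))
    (Set.iInter_subset _ 0)

theorem J7c3 (a b : Fin 2) : (!₂[((a : ℕ) : ℝ), ((b : ℕ) : ℝ)] : Plane) ∈ carpet := by
  unfold carpet
  rw [Set.mem_iInter]
  intro n
  induction n with
  | zero =>
    have key : ∀ c : Fin 2, (0 : ℝ) ≤ ((c : ℕ) : ℝ) ∧ ((c : ℕ) : ℝ) ≤ 1 := by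
      intro c
      refine ⟨Nat.cast_nonneg _, ?_⟩
      have : (c : ℕ) ≤ 1 := by omega
      exact_mod_cast this
    intro i
    fin_cases i
    · exact key a
    · exact key b
  | succ n ih =>
    refine ⟨_, ih, ![⟨2 * a.val, by omega⟩, ⟨2 * b.val, by omega⟩], ?_, ?_⟩
    · rintro ⟨e1, _⟩
      have e1' : 2 * a.val = 1 := congrArg Fin.val e1
      omega
    · intro i
      fin_cases i
      · change ((a : ℕ) : ℝ) = (((a : ℕ) : ℝ) + ((2 * a.val : ℕ) : ℝ)) / 3
        push_cast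
        ring
      · change ((b : ℕ) : ℝ) = (((b : ℕ) : ℝ) + ((2 * b.val : ℕ) : ℝ)) / 3
        push_cast
        ring

theorem J7a_X (w : List Letter) (e : Letter) :
    X (w ++ [e]) = 9 ^ w.length * e.1.val + X w := by
  induction w with
  | nil => simp [X]
  | cons l w ih =>
    rw [List.cons_append, X, ih, X, List.length_cons, pow_succ]
    ring

theorem J7a_Y (w : List Letter) (e : Letter) :
    Y (w ++ [e]) = 9 ^ w.length * e.2.val + Y w := by
  induction w with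
  | nil => simp [Y]
  | cons l w ih =>
    rw [List.cons_append, Y, ih, Y, List.length_cons, pow_succ]
    ring

theorem J7a_mem
    (self9 : ∀ (q : Plane), q ∈ carpet → ∀ (l : Letter), okL l = true → ∀ (p : Plane),
      p 0 = (q 0 + (l.1.val : ℝ)) / 9 → p 1 = (q 1 + (l.2.val : ℝ)) / 9 → p ∈ carpet)
    (cor : ∀ a b : Fin 2, (!₂[((a : ℕ) : ℝ), ((b : ℕ) : ℝ)] : Plane) ∈ carpet)
    (a b : Fin 2) (w : List Letter) (hw : Ok w) :
    (!₂[((X w : ℝ) + ((a : ℕ) : ℝ)) / 9 ^ w.length, ((Y w : ℝ) + ((b : ℕ) : ℝ)) / 9 ^ w.length]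
      : Plane) ∈ carpet := by
  induction w using List.reverseRecOn with
  | nil =>
    have := cor a b
    simpa [X, Y] using this
  | append_singleton w e ih =>
    have h1 : Ok w := fun l hl => hw l (List.mem_append_left _ hl)
    have h2 : okL e = true := hw e (List.mem_append_right _ (List.mem_singleton.2 rfl))
    apply self9 _ (ih h1) e h2
    · show ((X (w ++ [e]) : ℝ) + ((a : ℕ) : ℝ)) / 9 ^ (w ++ [e]).length =
        (((X w : ℝ) + ((a : ℕ) : ℝ)) / 9 ^ w.length + (e.1.val : ℝ)) / 9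
      rw [J7a_X, List.length_append, List.length_singleton, pow_succ]
      push_cast
      field_simp
      ring
    · show ((Y (w ++ [e]) : ℝ) + ((b : ℕ) : ℝ)) / 9 ^ (w ++ [e]).length =
        (((Y w : ℝ) + ((b : ℕ) : ℝ)) / 9 ^ w.length + (e.2.val : ℝ)) / 9
      rw [J7a_Y, List.length_append, List.length_singleton, pow_succ]
      push_cast
      field_simp
      ring

theorem J7a
    (self9 : ∀ (q : Plane), q ∈ carpet → ∀ (l : Letter), okL l = true → ∀ (p : Plane),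
      p 0 = (q 0 + (l.1.val : ℝ)) / 9 → p 1 = (q 1 + (l.2.val : ℝ)) / 9 → p ∈ carpet)
    (cor : ∀ a b : Fin 2, (!₂[((a : ℕ) : ℝ), ((b : ℕ) : ℝ)] : Plane) ∈ carpet)
    (w : List Letter) (hw : Ok w) (a b : Fin 2) :
    (!₂[((X w : ℝ) + ((a : ℕ) : ℝ)) / 9 ^ w.length, ((Y w : ℝ) + ((b : ℕ) : ℝ)) / 9 ^ w.length]
      : Plane) ∈ K w := by
  have ha : ((a : ℕ) : ℝ) ≤ 1 := by
    have : (a : ℕ) ≤ 1 := by omega
    exact_mod_cast this
  have hb : ((b : ℕ) : ℝ) ≤ 1 := by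
    have : (b : ℕ) ≤ 1 := by omega
    exact_mod_cast this
  have ha0 : (0 : ℝ) ≤ ((a : ℕ) : ℝ) := Nat.cast_nonneg _
  have hb0 : (0 : ℝ) ≤ ((b : ℕ) : ℝ) := Nat.cast_nonneg _
  have h9 : (9 : ℝ) ^ w.length ≠ 0 := by positivity
  have e1 : (9 : ℝ) ^ w.length * (((X w : ℝ) + ((a : ℕ) : ℝ)) / 9 ^ w.length) = X w + (a : ℕ) := by
    field_simp
  have e2 : (9 : ℝ) ^ w.length * (((Y w : ℝ) + ((b : ℕ) : ℝ)) / 9 ^ w.length) = Y w + (b : ℕ) := by
    field_simp
  refine ⟨J7a_mem self9 cor a b w hw, ?_, ?_, ?_, ?_⟩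
  · show (X w : ℝ) ≤ 9 ^ w.length * (((X w : ℝ) + ((a : ℕ) : ℝ)) / 9 ^ w.length)
    rw [e1]
    linarith
  · show (9 : ℝ) ^ w.length * (((X w : ℝ) + ((a : ℕ) : ℝ)) / 9 ^ w.length) ≤ X w + 1
    rw [e1]
    linarith
  · show (Y w : ℝ) ≤ 9 ^ w.length * (((Y w : ℝ) + ((b : ℕ) : ℝ)) / 9 ^ w.length)
    rw [e2]
    linarith
  · show (9 : ℝ) ^ w.length * (((Y w : ℝ) + ((b : ℕ) : ℝ)) / 9 ^ w.length) ≤ Y w + 1
    rw [e2]
    linarith

theorem J7d (l : Letter) (w : List Letter) : K (l :: w) ⊆ K w := by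
  rintro p ⟨h0, h1, h2, h3, h4⟩
  have hl1 : (l.1.val : ℝ) ≤ 8 := by
    have : l.1.val ≤ 8 := by omega
    exact_mod_cast this
  have hl2 : (l.2.val : ℝ) ≤ 8 := by
    have : l.2.val ≤ 8 := by omega
    exact_mod_cast this
  have hl10 : (0 : ℝ) ≤ (l.1.val : ℝ) := Nat.cast_nonneg _
  have hl20 : (0 : ℝ) ≤ (l.2.val : ℝ) := Nat.cast_nonneg _
  rw [List.length_cons, pow_succ, X] at h1 h2
  rw [List.length_cons, pow_succ, Y] at h3 h4
  push_cast at h1 h2 h3 h4
  refine ⟨h0, ?_, ?_, ?_, ?_⟩ <;> linarith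

theorem J7f_c (m : ℕ) (x a b : ℝ) (h1 : x ≤ 9 ^ m * a) (h2 : 9 ^ m * a ≤ x + 1)
    (h3 : x ≤ 9 ^ m * b) (h4 : 9 ^ m * b ≤ x + 1) : |a - b| ≤ 1 / 9 ^ m := by
  have h9 : (0 : ℝ) < 9 ^ m := by positivity
  rw [abs_le]
  constructor
  · rw [neg_le_iff_add_nonneg, ← sub_nonneg]
    have : 0 ≤ (9 : ℝ) ^ m * (a - b + 1 / 9 ^ m) := by
      rw [mul_add, mul_one_div_cancel h9.ne']
      linarith
    have := nonneg_of_mul_nonneg_right this h9
    linarith
  · rw [le_div_iff₀ h9]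
    linarith

theorem J7f (w : List Letter) (p q : Plane) (hp : p ∈ K w) (hq : q ∈ K w) :
    dist p q ≤ 2 / 9 ^ w.length := by
  obtain ⟨-, h1, h2, h3, h4⟩ := hp
  obtain ⟨-, g1, g2, g3, g4⟩ := hq
  have e0 := J7f_c w.length _ _ _ h1 h2 g1 g2
  have e1 := J7f_c w.length _ _ _ h3 h4 g3 g4
  have hd : dist p q ≤ |p 0 - q 0| + |p 1 - q 1| := by
    rw [EuclideanSpace.dist_eq, Fin.sum_univ_two, Real.dist_eq, Real.dist_eq]
    rw [Real.sqrt_le_left (by positivity)]
    have a0 := abs_nonneg (p 0 - q 0)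
    have a1 := abs_nonneg (p 1 - q 1)
    nlinarith
  calc dist p q ≤ _ := hd
    _ ≤ 1 / 9 ^ w.length + 1 / 9 ^ w.length := add_le_add e0 e1
    _ = 2 / 9 ^ w.length := by ring

theorem X_snoc (w : List Letter) (e : Letter) :
    X (w ++ [e]) = 9 ^ w.length * e.1.val + X w := by
  induction w with
  | nil => simp [X]
  | cons l w ih =>
    rw [List.cons_append, X, X, ih, List.length_cons, pow_succ]
    ring

theorem Y_snoc (w : List Letter) (e : Letter) :
    Y (w ++ [e]) = 9 ^ w.length * e.2.val + Y w := by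
  induction w with
  | nil => simp [Y]
  | cons l w ih =>
    rw [List.cons_append, Y, Y, ih, List.length_cons, pow_succ]
    ring

theorem J7b_aux (m : ℕ) : ∀ p : Plane, p ∈ stage (2 * m) →
    ∃ w : List Letter, w.length = m ∧ Ok w ∧ ((X w : ℝ) ≤ 9 ^ w.length * p 0 ∧
      9 ^ w.length * p 0 ≤ X w + 1 ∧
      (Y w : ℝ) ≤ 9 ^ w.length * p 1 ∧ 9 ^ w.length * p 1 ≤ Y w + 1) := by
  induction m with
  | zero =>
    intro p hp
    have hp' : ∀ i, 0 ≤ p i ∧ p i ≤ 1 := hp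
    refine ⟨[], rfl, ?_, ?_⟩
    · intro l hl; simp at hl
    · simp only [X, Y, List.length_nil, pow_zero, one_mul, Nat.cast_zero, zero_add]
      exact ⟨(hp' 0).1, (hp' 0).2, (hp' 1).1, (hp' 1).2⟩
  | succ m ih =>
    intro p hp
    obtain ⟨r, hr, a, ha, hpa⟩ := hp
    obtain ⟨q, hq, b, hb, hrb⟩ := hr
    obtain ⟨w, hw1, hw2, h1, h2, h3, h4⟩ := ih q hq
    have hlt : ∀ i, 3 * (a i).val + (b i).val < 9 := by
      intro i
      have := (a i).isLt
      have := (b i).isLt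
      omega
    set e : Letter := (⟨3 * (a 0).val + (b 0).val, hlt 0⟩, ⟨3 * (a 1).val + (b 1).val, hlt 1⟩) with he
    refine ⟨w ++ [e], ?_, ?_, ?_⟩
    · simp [hw1]
    · intro l hl
      rw [List.mem_append] at hl
      rcases hl with hl | hl
      · exact hw2 l hl
      · rw [List.mem_singleton] at hl
        subst hl
        have ha0 := (a 0).isLt
        have ha1 := (a 1).isLt
        have hb0 := (b 0).isLt
        have hb1 := (b 1).isLt
        have ha' : ¬ ((a 0).val = 1 ∧ (a 1).val = 1) := by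
          intro h
          apply ha
          exact ⟨Fin.ext h.1, Fin.ext h.2⟩
        have hb' : ¬ ((b 0).val = 1 ∧ (b 1).val = 1) := by
          intro h
          apply hb
          exact ⟨Fin.ext h.1, Fin.ext h.2⟩
        have d0 : (3 * (a 0).val + (b 0).val) / 3 = (a 0).val := by omega
        have d1 : (3 * (a 1).val + (b 1).val) / 3 = (a 1).val := by omega
        have m0 : (3 * (a 0).val + (b 0).val) % 3 = (b 0).val := by omega
        have m1 : (3 * (a 1).val + (b 1).val) % 3 = (b 1).val := by omega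
        simp only [okL, he, d0, d1, m0, m1, Bool.and_eq_true, Bool.not_eq_true',
          Bool.and_eq_false_iff, beq_eq_false_iff_ne, ne_eq]
        constructor
        · by_contra hcon
          push Not at hcon
          exact ha' hcon
        · by_contra hcon
          push Not at hcon
          exact hb' hcon
    · have hlen : (w ++ [e]).length = w.length + 1 := by simp
      rw [X_snoc, Y_snoc, hlen]
      have hp0 : ∀ i, (9 : ℝ) ^ (w.length + 1) * p i
          = 9 ^ w.length * (3 * ((a i : ℕ) : ℝ) + ((b i : ℕ) : ℝ)) + 9 ^ w.length * q i := by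
        intro i
        rw [hpa i, hrb i, pow_succ]
        ring
      rw [hp0 0, hp0 1]
      simp only [he]
      push_cast
      refine ⟨?_, ?_, ?_, ?_⟩ <;> linarith

theorem J7b (p : Plane) (hp : p ∈ carpet) (m : ℕ) :
    ∃ w : List Letter, w.length = m ∧ Ok w ∧ p ∈ K w := by
  obtain ⟨w, h1, h2, h3⟩ := J7b_aux m p (Set.mem_iInter.1 hp (2 * m))
  exact ⟨w, h1, h2, hp, h3⟩

theorem J7e
    (corner : ∀ (w : List Letter), Ok w → ∀ (a b : Fin 2),
      (!₂[((X w : ℝ) + ((a : ℕ) : ℝ)) / 9 ^ w.length, ((Y w : ℝ) + ((b : ℕ) : ℝ)) / 9 ^ w.length]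
      : Plane) ∈ K w)
    (cover : ∀ (p : Plane), p ∈ carpet → ∀ (m : ℕ),
      ∃ w : List Letter, w.length = m ∧ Ok w ∧ p ∈ K w)
    (diam : ∀ (w : List Letter) (p q : Plane), p ∈ K w → q ∈ K w → dist p q ≤ 2 / 9 ^ w.length)
    (p : Plane) (hp : p ∈ carpet) (ε : ℝ) (hε : 0 < ε) :
    ∃ q ∈ carpet, q ≠ p ∧ dist p q < ε := by
  obtain ⟨m, hm⟩ : ∃ m : ℕ, 2 / (9:ℝ) ^ m < ε := by
    obtain ⟨m, hm⟩ := exists_pow_lt_of_lt_one (show (0:ℝ) < ε / 2 by positivity)
      (show (1/9:ℝ) < 1 by norm_num)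
    refine ⟨m, ?_⟩
    have h9 : (0:ℝ) < 9 ^ m := by positivity
    rw [div_pow, one_pow] at hm
    have : 2 / (9:ℝ)^m = 2 * (1 / 9 ^ m) := by ring
    rw [this]; linarith
  obtain ⟨w, hwl, hwo, hpw⟩ := cover p hp m
  have h9 : (0:ℝ) < 9 ^ w.length := by positivity
  have c0 := corner w hwo 0 0
  have c1 := corner w hwo 1 0
  set q0 : Plane := !₂[((X w : ℝ) + (((0 : Fin 2) : ℕ) : ℝ)) / 9 ^ w.length, ((Y w : ℝ) + (((0 : Fin 2) : ℕ) : ℝ)) / 9 ^ w.length] with hq0
  set q1 : Plane := !₂[((X w : ℝ) + (((1 : Fin 2) : ℕ) : ℝ)) / 9 ^ w.length, ((Y w : ℝ) + (((0 : Fin 2) : ℕ) : ℝ)) / 9 ^ w.length] with hq1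
  have hne : q0 ≠ q1 := by
    intro h
    have h2 := congrArg (fun v : Plane => v 0) h
    simp [hq0, hq1] at h2
  have key : ∀ q ∈ K w, dist p q < ε := fun q hq => by
    have := diam w p q hpw hq
    rw [hwl] at this
    linarith
  by_cases h : q0 = p
  · refine ⟨q1, c1.1, ?_, key _ c1⟩
    rw [← h]; exact fun h' => hne h'.symm
  · exact ⟨q0, c0.1, h, key _ c0⟩

theorem XY_inj : ∀ (w v : List Letter), w.length = v.length → X w = X v → Y w = Y v → w = v
  | [], [], _, _, _ => rfl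
  | [], _ :: _, h, _, _ => by simp at h
  | _ :: _, [], h, _, _ => by simp at h
  | l :: w, k :: v, h, hx, hy => by
    simp only [X, Y] at hx hy
    have h1 := l.1.isLt
    have h2 := k.1.isLt
    have h3 := l.2.isLt
    have h4 := k.2.isLt
    have e1 : l.1.val = k.1.val := by omega
    have e2 : X w = X v := by omega
    have e3 : l.2.val = k.2.val := by omega
    have e4 : Y w = Y v := by omega
    have e5 : w = v := XY_inj w v (by simpa using h) e2 e4
    have e6 : l = k := Prod.ext (Fin.ext e1) (Fin.ext e3)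
    rw [e5, e6]

theorem J7g (m : ℕ) (V : Set Plane) (hV : ∀ p ∈ V, ∀ q ∈ V, dist p q ≤ 2 / 9 ^ m) :
    ∃ T : Finset (List Letter), T.card ≤ 36 ∧
      ∀ w : List Letter, w.length = m → (K w ∩ V).Nonempty → w ∈ T := by
  classical
  rcases V.eq_empty_or_nonempty with hE | ⟨v0, hv0⟩
  · exact ⟨∅, by simp, fun w _ h => by simp [hE] at h⟩
  have h9 : (0:ℝ) < 9 ^ m := by positivity
  set BX : Finset ℤ := Finset.Icc ⌈(9:ℝ) ^ m * v0 0 - 3⌉ ⌊(9:ℝ) ^ m * v0 0 + 2⌋ with hBX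
  set BY : Finset ℤ := Finset.Icc ⌈(9:ℝ) ^ m * v0 1 - 3⌉ ⌊(9:ℝ) ^ m * v0 1 + 2⌋ with hBY
  have hcard : ∀ t : ℝ, (Finset.Icc ⌈t - 3⌉ ⌊t + 2⌋).card ≤ 6 := by
    intro t
    rw [Int.card_Icc]
    have a1 := Int.floor_le (t + 2)
    have a2 := Int.le_ceil (t - 3)
    have : ((⌊t + 2⌋ : ℤ) : ℝ) - ((⌈t - 3⌉ : ℤ) : ℝ) ≤ 5 := by linarith
    have h' : ⌊t + 2⌋ - ⌈t - 3⌉ ≤ 5 := by exact_mod_cast this
    omega
  have hfin : {w : List Letter | w.length = m}.Finite := List.finite_length_eq Letter m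
  set T : Finset (List Letter) := hfin.toFinset.filter
    (fun w => ((X w : ℤ)) ∈ BX ∧ ((Y w : ℤ)) ∈ BY) with hT
  refine ⟨T, ?_, ?_⟩
  · have hle : T.card ≤ (BX ×ˢ BY).card := by
      refine Finset.card_le_card_of_injOn (fun w => ((X w : ℤ), (Y w : ℤ))) ?_ ?_
      · intro w hw
        have hw' := hw
        simp only [hT, Finset.coe_filter, Set.mem_ofPred_eq] at hw'
        simp only [Finset.coe_product, Set.mem_prod, Finset.mem_coe]
        exact hw'.2
      · intro w hw v hv h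
        simp only [hT, Finset.coe_filter, Set.mem_ofPred_eq, Set.Finite.mem_toFinset] at hw hv
        simp only [Prod.mk.injEq, Nat.cast_inj] at h
        exact XY_inj w v (hw.1.trans hv.1.symm) h.1 h.2
    have h6x : BX.card ≤ 6 := hcard _
    have h6y : BY.card ≤ 6 := hcard _
    rw [Finset.card_product] at hle
    calc T.card ≤ BX.card * BY.card := hle
      _ ≤ 6 * 6 := Nat.mul_le_mul h6x h6y
      _ = 36 := by norm_num
  · rintro w hwl ⟨p, hpK, hpV⟩
    have hd := hV p hpV v0 hv0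
    have hcoord : ∀ i : Fin 2, |p i - v0 i| ≤ 2 / 9 ^ m := fun i => by
      have : ‖(p - v0) i‖ ≤ ‖p - v0‖ := PiLp.norm_apply_le (p - v0) i
      rw [← dist_eq_norm] at this
      simp only [PiLp.sub_apply, Real.norm_eq_abs] at this
      linarith
    have hc : ∀ i : Fin 2, 9 ^ m * v0 i - 2 ≤ 9 ^ m * p i ∧ 9 ^ m * p i ≤ 9 ^ m * v0 i + 2 := fun i => by
      have h := abs_le.1 (hcoord i)
      have e : (9:ℝ) ^ m * (2 / 9 ^ m) = 2 := by field_simp
      constructor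
      · nlinarith [mul_le_mul_of_nonneg_left h.1 h9.le]
      · nlinarith [mul_le_mul_of_nonneg_left h.2 h9.le]
    obtain ⟨_, k1, k2, k3, k4⟩ := hpK
    rw [hwl] at k1 k2 k3 k4
    have c0 := hc 0
    have c1 := hc 1
    simp only [hT, Finset.mem_filter, Set.Finite.mem_toFinset, Set.mem_ofPred_eq, hBX, hBY, Finset.mem_Icc]
    refine ⟨hwl, ⟨?_, ?_⟩, ?_, ?_⟩
    · rw [Int.ceil_le]; push_cast; linarith [c0.1, c0.2]
    · rw [Int.le_floor]; push_cast; linarith [c0.1, c0.2]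
    · rw [Int.ceil_le]; push_cast; linarith [c1.1, c1.2]
    · rw [Int.le_floor]; push_cast; linarith [c1.1, c1.2]

theorem J9 (δ : ℝ) (h0 : 0 < δ) (h1 : δ ≤ 2) :
    ∃ m : ℕ, 2 / 9 ^ (m + 1) < δ ∧ δ ≤ 2 / 9 ^ m := by
  have hx : 1 ≤ 2 / δ := by rw [le_div_iff₀ h0]; linarith
  obtain ⟨m, hm1, hm2⟩ := exists_nat_pow_near hx (show (1:ℝ) < 9 by norm_num)
  refine ⟨m, ?_, ?_⟩
  · rw [div_lt_iff₀ h0] at hm2
    rw [div_lt_iff₀ (by positivity)]
    linarith
  · rw [le_div_iff₀ h0] at hm1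
    rw [le_div_iff₀ (by positivity)]
    linarith

theorem J8 (hcomp : IsCompact carpet) (hcor : ∀ a b : Fin 2, (!₂[((a : ℕ) : ℝ), ((b : ℕ) : ℝ)] : Plane) ∈ carpet)
    {Y : Type} [MetricSpace Y] (f : carpet ≃ₜ Y) :
    ∃ (u : Plane → ℝ) (D : ℝ), 0 < D ∧
      (∀ p q : carpet, |u p - u q| ≤ dist (f p) (f q)) ∧
      (∀ p ∈ carpet, p 0 = 0 → u p = 0) ∧ (∀ p ∈ carpet, p 0 = 1 → D ≤ u p) := by
  classical
  haveI : CompactSpace carpet := isCompact_iff_compactSpace.mp hcomp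
  have hcx : Continuous (fun x : carpet => (x : Plane) 0) := by fun_prop
  set A0 : Set carpet := {x | (x : Plane) 0 = 0} with hA0
  set A1 : Set carpet := {x | (x : Plane) 0 = 1} with hA1
  have hc0 : IsCompact A0 := (isClosed_eq hcx continuous_const).isCompact
  have hc1 : IsCompact A1 := (isClosed_eq hcx continuous_const).isCompact
  have hS0 : IsCompact (f '' A0) := hc0.image f.continuous
  have hS1 : IsCompact (f '' A1) := hc1.image f.continuous
  have hn0 : (f '' A0).Nonempty := by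
    refine Set.Nonempty.image _ ⟨⟨_, hcor 0 0⟩, ?_⟩
    simp [hA0]
  have hn1 : (f '' A1).Nonempty := by
    refine Set.Nonempty.image _ ⟨⟨_, hcor 1 0⟩, ?_⟩
    simp [hA1]
  obtain ⟨y1, hy1, hmin⟩ := hS1.exists_isMinOn hn1 (Metric.continuous_infDist_pt (f '' A0)).continuousOn
  have hpos : 0 < Metric.infDist y1 (f '' A0) := by
    rw [← hS0.isClosed.notMem_iff_infDist_pos hn0]
    rintro ⟨a, ha, hay⟩
    obtain ⟨b, hb, hby⟩ := hy1
    have hab : a = b := f.injective (hay.trans hby.symm)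
    subst hab
    have h1 : (a : Plane) 0 = 0 := ha
    have h2 : (a : Plane) 0 = 1 := hb
    rw [h1] at h2
    exact zero_ne_one h2
  refine ⟨fun p => if h : p ∈ carpet then Metric.infDist (f ⟨p, h⟩) (f '' A0) else 0,
    Metric.infDist y1 (f '' A0), hpos, ?_, ?_, ?_⟩
  · intro p q
    have hp : (p : Plane) ∈ carpet := p.2
    have hq : (q : Plane) ∈ carpet := q.2
    simp only [dif_pos hp, dif_pos hq]
    have h1 := (Metric.lipschitz_infDist_pt (f '' A0)).dist_le_mul (f p) (f q)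
    rw [Real.dist_eq] at h1
    simpa using h1
  · intro p hp h0
    simp only [dif_pos hp]
    exact Metric.infDist_zero_of_mem ⟨⟨p, hp⟩, h0, rfl⟩
  · intro p hp h1
    simp only [dif_pos hp]
    exact hmin ⟨⟨p, hp⟩, h1, rfl⟩

end Pool.Agent.MP049a2b
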