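import Pool.Agent.MP049a2b.Defs

namespace Pool.Agent.MP049a2b

open scoped ENNReal NNReal

theorem J11 {Y : Type} [MetricSpace Y] [CompactSpace Y] (f : carpet ≃ₜ Y) (η : ℝ≥0 ≃ₜ ℝ≥0)
    (hη : ∀ (x a b : carpet) (t : ℝ≥0), dist x a ≤ t * dist x b →
      dist (f x) (f a) ≤ η t * dist (f x) (f b))
    (noiso : ∀ (p : Plane), p ∈ carpet → ∀ (ε : ℝ), 0 < ε → ∃ q ∈ carpet, q ≠ p ∧ dist p q < ε)
    (hdiam : ∀ (w : List Letter) (p q : Plane), p ∈ K w → q ∈ K w → dist p q ≤ 2 / 9 ^ w.length)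
    (hdiam2 : ∀ p ∈ carpet, ∀ q ∈ carpet, dist p q ≤ 2)
    (hcard : ∀ (m : ℕ) (V : Set Plane), (∀ p ∈ V, ∀ q ∈ V, dist p q ≤ 2 / 9 ^ m) →
      ∃ T : Finset (List Letter), T.card ≤ 36 ∧
      ∀ w : List Letter, w.length = m → (K w ∩ V).Nonempty → w ∈ T)
    (hlev : ∀ (δ : ℝ), 0 < δ → δ ≤ 2 → ∃ m : ℕ, 2 / 9 ^ (m + 1) < δ ∧ δ ≤ 2 / 9 ^ m)
    (W : Set Y) (hW : IsOpen W) (hne : W.Nonempty) :
    ∃ (m : ℕ) (T : Finset (List Letter)), T.card ≤ 36 ∧
      (∀ w : List Letter, w.length = m → (∃ x : carpet, (x : Plane) ∈ K w ∧ f x ∈ W) → w ∈ T) ∧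
      (∀ w ∈ T, w.length = m ∧
        Metric.diam (f '' {x : carpet | (x : Plane) ∈ K w}) ≤ 2 * η 18 * Metric.diam W) := by
  classical
  obtain ⟨V, hV⟩ : ∃ V : Set Plane, V = {p : Plane | ∃ x : carpet, (x : Plane) = p ∧ f x ∈ W} :=
    ⟨_, rfl⟩
  have hmem : ∀ x : carpet, f x ∈ W → (x : Plane) ∈ V := by
    intro x hx
    rw [hV]
    exact ⟨x, rfl, hx⟩
  have hmem' : ∀ p ∈ V, ∃ x : carpet, (x : Plane) = p ∧ f x ∈ W := by
    intro p hp
    rw [hV] at hp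
    exact hp
  have hVc : ∀ p ∈ V, p ∈ carpet := by
    intro p hp
    obtain ⟨x, rfl, _⟩ := hmem' p hp
    exact x.2
  have hd2 : ∀ p ∈ V, ∀ q ∈ V, dist p q ≤ 2 := fun p hp q hq => hdiam2 p (hVc p hp) q (hVc q hq)
  have hbd : Bornology.IsBounded V := Metric.isBounded_iff.2 ⟨2, fun p hp q hq => hd2 p hp q hq⟩
  have hpos : 0 < Metric.diam V := by
    obtain ⟨y, hy⟩ := hne
    have hfo : IsOpen (f ⁻¹' W) := hW.preimage f.continuous
    have hp : f.symm y ∈ f ⁻¹' W := by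
      change f (f.symm y) ∈ W
      rw [f.apply_symm_apply]
      exact hy
    obtain ⟨ε, hε, hb⟩ := Metric.isOpen_iff.1 hfo _ hp
    obtain ⟨q, hq, hqp, hdq⟩ := noiso ((f.symm y : carpet) : Plane) (f.symm y).2 ε hε
    have hq' : (⟨q, hq⟩ : carpet) ∈ f ⁻¹' W := by
      apply hb
      rw [Metric.mem_ball, dist_comm]
      exact hdq
    have h1 := hmem _ hp
    have h2 := hmem _ hq'
    have h3 : 0 < dist ((f.symm y : carpet) : Plane) q := dist_pos.2 (Ne.symm hqp)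
    exact h3.trans_le (Metric.dist_le_diam_of_mem hbd h1 h2)
  have hle2 : Metric.diam V ≤ 2 := Metric.diam_le_of_forall_dist_le (by norm_num) hd2
  obtain ⟨m, hm1, hm2⟩ := hlev _ hpos hle2
  obtain ⟨T0, hT0, hT1⟩ := hcard m V (fun p hp q hq =>
    (Metric.dist_le_diam_of_mem hbd hp hq).trans hm2)
  refine ⟨m, T0.filter (fun w => w.length = m ∧ ∃ x : carpet, (x : Plane) ∈ K w ∧ f x ∈ W),
    (Finset.card_filter_le _ _).trans hT0, ?_, ?_⟩
  · intro w hw hx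
    rw [Finset.mem_filter]
    obtain ⟨x, hx1, hx2⟩ := hx
    exact ⟨hT1 w hw ⟨x, hx1, hmem x hx2⟩, hw, x, hx1, hx2⟩
  · intro w hw
    rw [Finset.mem_filter] at hw
    obtain ⟨_, hwm, z, hz1, hz2⟩ := hw
    refine ⟨hwm, ?_⟩
    have hp9 : (0 : ℝ) < 9 ^ (m + 1) := by positivity
    have hex : ∃ x : carpet, f x ∈ W ∧ 1 / 9 ^ (m + 1) < dist z x := by
      by_contra hcon
      push Not at hcon
      have h4 : Metric.diam V ≤ 2 / 9 ^ (m + 1) := by
        apply Metric.diam_le_of_forall_dist_le (by positivity)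
        intro p hp q hq
        obtain ⟨x1, rfl, hx1⟩ := hmem' p hp
        obtain ⟨x2, rfl, hx2⟩ := hmem' q hq
        have h5 := hcon x1 hx1
        have h6 := hcon x2 hx2
        have h7 : dist x1 x2 ≤ dist x1 z + dist z x2 := dist_triangle _ _ _
        rw [dist_comm x1 z] at h7
        change dist x1 x2 ≤ _
        have h8 : (2 : ℝ) / 9 ^ (m + 1) = 1 / 9 ^ (m + 1) + 1 / 9 ^ (m + 1) := by ring
        rw [h8]
        linarith
      linarith
    obtain ⟨x, hxW, hx⟩ := hex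
    have hWb : Bornology.IsBounded W := Metric.isBounded_of_compactSpace
    have key : ∀ a : carpet, (a : Plane) ∈ K w → dist (f z) (f a) ≤ η 18 * Metric.diam W := by
      intro a ha
      have h1 : dist z a ≤ 2 / 9 ^ w.length := hdiam w z a hz1 ha
      rw [hwm] at h1
      have h2 : dist z a ≤ ((18 : ℝ≥0) : ℝ) * dist z x := by
        have h3 : (2 : ℝ) / 9 ^ m = 18 * (1 / 9 ^ (m + 1)) := by
          rw [pow_succ]; field_simp; norm_num
        have h4 : ((18 : ℝ≥0) : ℝ) = 18 := by norm_num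
        rw [h4]
        rw [h3] at h1
        linarith
      refine (hη z a x 18 h2).trans ?_
      exact mul_le_mul_of_nonneg_left (Metric.dist_le_diam_of_mem hWb hz2 hxW) (NNReal.coe_nonneg _)
    have hnn : 0 ≤ (η 18 : ℝ) * Metric.diam W := mul_nonneg (NNReal.coe_nonneg _) Metric.diam_nonneg
    apply Metric.diam_le_of_forall_dist_le (by linarith)
    rintro _ ⟨a, ha, rfl⟩ _ ⟨b, hb, rfl⟩
    have h1 := key a ha
    have h2 := key b hb
    have h3 : dist (f a) (f b) ≤ dist (f a) (f z) + dist (f z) (f b) := dist_triangle _ _ _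
    rw [dist_comm (f a) (f z)] at h3
    linarith

end Pool.Agent.MP049a2b
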