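import Pool.Agent.MP049a2b.Flow
import Pool.Agent.MP049a2b.Averages
import Pool.Agent.MP049a2b.Geometry
import Pool.Agent.MP049a2b.Quasi

namespace Pool.Agent.MP049a2b

open scoped ENNReal NNReal

/-! the geometric facts in the form in which they are used -/

theorem corner (w : List Letter) (hw : Ok w) (a b : Fin 2) :
    (!₂[((X w : ℝ) + ((a : ℕ) : ℝ)) / 9 ^ w.length, ((Y w : ℝ) + ((b : ℕ) : ℝ)) / 9 ^ w.length]
      : Plane) ∈ K w :=
  J7a (fun q hq l hl p h0 h1 => J7c2 q hq l hl p h0 h1) J7c3 w hw a b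

theorem noiso (p : Plane) (hp : p ∈ carpet) (ε : ℝ) (hε : 0 < ε) :
    ∃ q ∈ carpet, q ≠ p ∧ dist p q < ε :=
  J7e corner J7b J7f p hp ε hε

theorem carpet_diam (p : Plane) (hp : p ∈ carpet) (q : Plane) (hq : q ∈ carpet) :
    dist p q ≤ 2 := by
  obtain ⟨w, hw, _, hpw⟩ := J7b p hp 0
  obtain ⟨v, hv, _, hqv⟩ := J7b q hq 0
  rw [List.length_eq_zero_iff] at hw hv
  subst hw; subst hv
  simpa using J7f [] p q hpw hqv

theorem side_mem (u : Plane → ℝ) (N : ℕ) (I : Set ℝ) (hI : Convex ℝ I) (w : List Letter)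
    (hN : w.length ≤ N) (hw : Ok w) (i : Fin 4)
    (h : ∀ p ∈ K w,
      (i = 0 → 9 ^ w.length * p 0 = X w) → (i = 1 → 9 ^ w.length * p 0 = X w + 1) →
      u p ∈ I) : U u N w i ∈ I :=
  J6 u N I hI corner J7d w hN hw i h

theorem cover_element {Y : Type} [MetricSpace Y] [CompactSpace Y] (f : carpet ≃ₜ Y)
    (η : ℝ≥0 ≃ₜ ℝ≥0)
    (hη : ∀ (x a b : carpet) (t : ℝ≥0), dist x a ≤ t * dist x b →
      dist (f x) (f a) ≤ η t * dist (f x) (f b))
    (W : Set Y) (hW : IsOpen W) (hne : W.Nonempty) :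
    ∃ (m : ℕ) (T : Finset (List Letter)), T.card ≤ 36 ∧
      (∀ w : List Letter, w.length = m → (∃ x : carpet, (x : Plane) ∈ K w ∧ f x ∈ W) → w ∈ T) ∧
      (∀ w ∈ T, w.length = m ∧
        Metric.diam (f '' {x : carpet | (x : Plane) ∈ K w}) ≤ 2 * η 18 * Metric.diam W) :=
  J11 f η hη noiso J7f carpet_diam J7g J9 W hW hne

theorem sum_biUnion_le {ι β : Type} [DecidableEq β] (s : Finset ι) (T : ι → Finset β)
    (g : β → ℝ) (hg : ∀ b, 0 ≤ g b) :
    ∑ b ∈ s.biUnion T, g b ≤ ∑ i ∈ s, ∑ b ∈ T i, g b := by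
  classical
  induction s using Finset.induction_on with
  | empty => simp
  | insert a s ha ih =>
    rw [Finset.biUnion_insert, Finset.sum_insert ha]
    have h := Finset.sum_union_inter (s₁ := T a) (s₂ := s.biUnion T) (f := g)
    have h2 : 0 ≤ ∑ b ∈ T a ∩ s.biUnion T, g b := Finset.sum_nonneg fun b _ => hg b
    linarith

/-- the main estimate -/
theorem J12 {Y : Type} [MetricSpace Y] (f : carpet ≃ₜ Y) (hf : Quasisymmetric f)
    (s p : ℝ) (hs : 1 < s) (hp : 1 < p) (hps : p.HolderConjugate s)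
    (h : ∀ t : Fin 12, ∑ l : Letter, ((A t l : ℝ) / 12) ^ s ≤ 1) :
    ENNReal.ofReal p ≤ dimH (Set.univ : Set Y) := by
  haveI : CompactSpace carpet := isCompact_iff_compactSpace.mp J7c
  haveI : CompactSpace Y := f.compactSpace
  obtain ⟨η, hη⟩ := hf
  by_contra hlt
  push Not at hlt
  obtain ⟨u, D, hD, hu, hu0, hu1⟩ := J8 J7c J7c3 f
  set κ : ℝ := 36 * (2 * (η 18 : ℝ)) ^ p + 1 with hκ
  have hκ0 : 0 < κ := by positivity
  obtain ⟨n, W, hWo, hWne, hWc, hWs⟩ := J10 (Y := Y) p hp hlt (D ^ p / κ) (by positivity)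
  choose m T hT1 hT2 hT3 using fun i => cover_element f η hη (W i) (hWo i) (hWne i)
  set Afin : Finset (List Letter) := Finset.univ.biUnion T with hAfin
  set N : ℕ := ∑ i, m i with hN
  set ρ : List Letter → ℝ := fun w => Metric.diam (f '' {x : carpet | (x : Plane) ∈ K w}) with hρ
  have hsuf : ∀ (w v : List Letter), v <:+ w → K w ⊆ K v := by
    intro w
    induction w with
    | nil => intro v hv; rw [List.suffix_nil] at hv; rw [hv]
    | cons l w ih =>
      intro v hv
      rcases List.suffix_cons_iff.mp hv with h | h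
      · rw [h]
      · exact (J7d l w).trans (ih v h)
  -- cover property
  have hcov : ∀ w : List Letter, w.length = N → C w ≠ 0 → ∃ v ∈ Afin, v <:+ w := by
    intro w hwN hCw
    have hok := J3c w hCw
    have hp0 := corner w hok 0 0
    obtain ⟨i, hi⟩ : ∃ i, f ⟨_, hp0.1⟩ ∈ W i := by
      have : f ⟨_, hp0.1⟩ ∈ ⋃ i, W i := by rw [hWc]; trivial
      simpa using this
    have hmi : m i ≤ N := Finset.single_le_sum (f := m) (fun _ _ => Nat.zero_le _) (Finset.mem_univ i)
    refine ⟨w.drop (N - m i), ?_, List.drop_suffix _ _⟩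
    refine Finset.mem_biUnion.mpr ⟨i, Finset.mem_univ _, hT2 i _ ?_ ⟨_, ?_, hi⟩⟩
    · rw [List.length_drop, hwN]; omega
    · exact hsuf w _ (List.drop_suffix _ _) hp0
  have hK : ∀ w : List Letter, ∀ x ∈ K w, ∀ y ∈ K w, |u x - u y| ≤ ρ w := by
    intro w x hx y hy
    refine (hu ⟨x, hx.1⟩ ⟨y, hy.1⟩).trans ?_
    exact Metric.dist_le_diam_of_mem (Metric.isBounded_of_compactSpace)
      (Set.mem_image_of_mem f (show (⟨x, hx.1⟩ : carpet) ∈ {x : carpet | (x : Plane) ∈ K w} from hx))
      (Set.mem_image_of_mem f (show (⟨y, hy.1⟩ : carpet) ∈ {x : carpet | (x : Plane) ∈ K w} from hy))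
  have hFle : ∀ w : List Letter, w.length ≤ N → F u N w ≤ C w * ρ w := by
    intro w hwN
    by_cases hC : C w = 0
    · have hz : ∀ t, c w t = 0 := by
        intro t
        have := (Finset.sum_eq_zero_iff_of_nonneg (fun t _ => J3b w t)).mp hC
        exact this t (Finset.mem_univ t)
      simp [F, hz, hC]
    · have hok := J3c w hC
      have key : ∀ i j : Fin 4, U u N w i - U u N w j ≤ ρ w := by
        intro i j
        have h1 : ∀ q ∈ K w, U u N w i ≤ u q + ρ w := by
          intro q hq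
          have := side_mem u N (Set.Iic (u q + ρ w)) (convex_Iic _) w hwN hok i
            (fun p hp _ _ => by
              have := (abs_le.mp (hK w p hp q hq)).2
              simp only [Set.mem_Iic]; linarith)
          simpa using this
        have := side_mem u N (Set.Ici (U u N w i - ρ w)) (convex_Ici _) w hwN hok j
            (fun p hp _ _ => by
              have := h1 p hp
              simp only [Set.mem_Ici]; linarith)
        simp only [Set.mem_Ici] at this
        linarith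
      unfold F C
      rw [Finset.sum_mul]
      exact Finset.sum_le_sum fun t _ => mul_le_mul_of_nonneg_left (key _ _) (J3b w t)
  have hmain := J4 (F u N) C ρ N p s hp hs hps (fun w => Finset.sum_nonneg fun t _ => J3b w t)
    (fun w => Metric.diam_nonneg) (fun w hw => J5 u N w hw) (fun w => J3 s hs h w) hFle Afin hcov
  rw [J3d, one_mul] at hmain
  -- lower bound
  have hlow : D ≤ F u N [] := by
    have hF : F u N [] = U u N [] 1 - U u N [] 0 := by
      unfold F
      rw [Finset.sum_eq_single (0 : Fin 12)]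
      · simp [c, dst, src]
      · intro t _ ht; simp [c, ht]
      · simp
    have hok : Ok ([] : List Letter) := by intro l hl; simp at hl
    have h1 : D ≤ U u N [] 1 := by
      have := side_mem u N (Set.Ici D) (convex_Ici _) [] (Nat.zero_le _) hok 1
        (fun p hp _ h => by
          have h' := h rfl
          simp [X] at h'
          exact hu1 p hp.1 h')
      simpa using this
    have h0 : U u N [] 0 ≤ 0 := by
      have := side_mem u N (Set.Iic 0) (convex_Iic _) [] (Nat.zero_le _) hok 0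
        (fun p hp h _ => by
          have h' := h rfl
          simp [X] at h'
          simp [hu0 p hp.1 h'])
      simpa using this
    rw [hF]; linarith
  have hp0 : 0 < p := by linarith
  have hsum : ∑ v ∈ Afin, ρ v ^ p ≤ ∑ i, 36 * (2 * (η 18 : ℝ) * Metric.diam (W i)) ^ p := by
    calc ∑ v ∈ Afin, ρ v ^ p ≤ ∑ i, ∑ v ∈ T i, ρ v ^ p :=
          sum_biUnion_le _ _ _ fun v => Real.rpow_nonneg Metric.diam_nonneg _
      _ ≤ ∑ i, 36 * (2 * (η 18 : ℝ) * Metric.diam (W i)) ^ p := by
          refine Finset.sum_le_sum fun i _ => ?_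
          calc ∑ v ∈ T i, ρ v ^ p ≤ ∑ v ∈ T i, (2 * (η 18 : ℝ) * Metric.diam (W i)) ^ p :=
                Finset.sum_le_sum fun v hv =>
                  Real.rpow_le_rpow Metric.diam_nonneg (hT3 i v hv).2 hp0.le
            _ = (T i).card * (2 * (η 18 : ℝ) * Metric.diam (W i)) ^ p := by simp
            _ ≤ 36 * (2 * (η 18 : ℝ) * Metric.diam (W i)) ^ p := by
                gcongr
                exact_mod_cast hT1 i
  have hsum2 : ∑ v ∈ Afin, ρ v ^ p ≤ κ * ∑ i, Metric.diam (W i) ^ p := by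
    refine hsum.trans ?_
    rw [Finset.mul_sum]
    refine Finset.sum_le_sum fun i _ => ?_
    rw [Real.mul_rpow (by positivity) Metric.diam_nonneg]
    have : 0 ≤ Metric.diam (W i) ^ p := Real.rpow_nonneg Metric.diam_nonneg _
    rw [hκ]; nlinarith
  have hlt2 : ∑ v ∈ Afin, ρ v ^ p < D ^ p := by
    refine hsum2.trans_lt ?_
    calc κ * ∑ i, Metric.diam (W i) ^ p < κ * (D ^ p / κ) := by gcongr
      _ = D ^ p := by field_simp
  have h3 : (∑ v ∈ Afin, ρ v ^ p) ^ (1 / p) < D := by
    calc (∑ v ∈ Afin, ρ v ^ p) ^ (1 / p) < (D ^ p) ^ (1 / p) :=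
          Real.rpow_lt_rpow (Finset.sum_nonneg fun v _ => Real.rpow_nonneg Metric.diam_nonneg _)
            hlt2 (by positivity)
      _ = D := by rw [← Real.rpow_mul hD.le]; rw [mul_one_div_cancel hp0.ne', Real.rpow_one]
  linarith

theorem main : ENNReal.ofReal (1 + Real.log 2 / Real.log 3) < confDim carpet := by
  obtain ⟨s, p, hs, hp, hps, hlt, h1, h2⟩ := J1
  have h := J2 s hs h1 h2
  refine lt_of_lt_of_le ((ENNReal.ofReal_lt_ofReal_iff (by linarith)).mpr hlt) ?_
  unfold confDim
  refine le_iInf fun Y => le_iInf fun inst => le_iInf fun hY => ?_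
  obtain ⟨f, hf⟩ := hY
  exact J12 f hf s p hs hp hps h

end Pool.Agent.MP049a2b
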