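import Mathlib

namespace Pool.Agent.MP049a2b

open scoped ENNReal NNReal

theorem J1 : ∃ s p : ℝ, 1 < s ∧ 1 < p ∧ p.HolderConjugate s ∧
    1 + Real.log 2 / Real.log 3 < p ∧
    32 * (1 / 4 : ℝ) ^ s + 4 * (1 / 6 : ℝ) ^ s + 12 * (1 / 12 : ℝ) ^ s ≤ 1 ∧
    35 * (1 / 4 : ℝ) ^ s + (1 / 6 : ℝ) ^ s + 3 * (1 / 12 : ℝ) ^ s ≤ 1 := by
  have hl2 : 0 < Real.log 2 := Real.log_pos (by norm_num)
  have hl3 : 0 < Real.log 3 := Real.log_pos (by norm_num)
  have hl23 : Real.log 2 < Real.log 3 := Real.log_lt_log (by norm_num) (by norm_num)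
  set s0 : ℝ := 1 + Real.log 3 / Real.log 2 with hs0
  have hr : 1 < Real.log 3 / Real.log 2 := (one_lt_div hl2).2 hl23
  have hs02 : 2 < s0 := by rw [hs0]; linarith
  have h2 : (1 / 2 : ℝ) ^ s0 = 1 / 6 := by
    rw [Real.rpow_def_of_pos (by norm_num)]
    have e : Real.log (1 / 2) * s0 = Real.log (1 / 6) := by
      rw [one_div, one_div, Real.log_inv, Real.log_inv, show (6 : ℝ) = 2 * 3 by norm_num,
        Real.log_mul (by norm_num) (by norm_num), hs0]
      field_simp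
    rw [e, Real.exp_log (by norm_num)]
  have h3 : (1 / 3 : ℝ) ^ s0 < 1 / 9 := by
    have h := Real.rpow_lt_rpow_of_exponent_gt (x := (1 / 3 : ℝ)) (by norm_num) (by norm_num) hs02
    have e : (1 / 3 : ℝ) ^ (2 : ℝ) = 1 / 9 := by
      rw [show (2 : ℝ) = ((2 : ℕ) : ℝ) by norm_num, Real.rpow_natCast]
      norm_num
    rw [e] at h
    exact h
  have h4 : (1 / 4 : ℝ) ^ s0 = 1 / 36 := by
    rw [show (1 / 4 : ℝ) = (1 / 2) * (1 / 2) by norm_num,
      Real.mul_rpow (by norm_num) (by norm_num), h2]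
    norm_num
  have h6 : (1 / 6 : ℝ) ^ s0 < 1 / 54 := by
    rw [show (1 / 6 : ℝ) = (1 / 2) * (1 / 3) by norm_num,
      Real.mul_rpow (by norm_num) (by norm_num), h2]
    linarith
  have h12 : (1 / 12 : ℝ) ^ s0 < 1 / 324 := by
    rw [show (1 / 12 : ℝ) = (1 / 4) * (1 / 3) by norm_num,
      Real.mul_rpow (by norm_num) (by norm_num), h4]
    linarith
  have c4 : Continuous fun s : ℝ => (1 / 4 : ℝ) ^ s := Real.continuous_const_rpow (by norm_num)
  have c6 : Continuous fun s : ℝ => (1 / 6 : ℝ) ^ s := Real.continuous_const_rpow (by norm_num)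
  have c12 : Continuous fun s : ℝ => (1 / 12 : ℝ) ^ s := Real.continuous_const_rpow (by norm_num)
  have cf : Continuous fun s : ℝ =>
      32 * (1 / 4 : ℝ) ^ s + 4 * (1 / 6 : ℝ) ^ s + 12 * (1 / 12 : ℝ) ^ s :=
    ((c4.const_mul 32).add (c6.const_mul 4)).add (c12.const_mul 12)
  have cg : Continuous fun s : ℝ =>
      35 * (1 / 4 : ℝ) ^ s + (1 / 6 : ℝ) ^ s + 3 * (1 / 12 : ℝ) ^ s :=
    ((c4.const_mul 35).add c6).add (c12.const_mul 3)
  have ef : ∀ᶠ s in nhds s0,
      32 * (1 / 4 : ℝ) ^ s + 4 * (1 / 6 : ℝ) ^ s + 12 * (1 / 12 : ℝ) ^ s < 1 := by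
    refine cf.continuousAt.eventually_lt_const ?_
    show 32 * (1 / 4 : ℝ) ^ s0 + 4 * (1 / 6 : ℝ) ^ s0 + 12 * (1 / 12 : ℝ) ^ s0 < 1
    rw [h4]
    linarith
  have eg : ∀ᶠ s in nhds s0,
      35 * (1 / 4 : ℝ) ^ s + (1 / 6 : ℝ) ^ s + 3 * (1 / 12 : ℝ) ^ s < 1 := by
    refine cg.continuousAt.eventually_lt_const ?_
    show 35 * (1 / 4 : ℝ) ^ s0 + (1 / 6 : ℝ) ^ s0 + 3 * (1 / 12 : ℝ) ^ s0 < 1
    rw [h4]
    linarith
  have e1 : ∀ᶠ s in nhds s0, 2 < s := eventually_gt_nhds hs02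
  have e2 : ∀ᶠ s in nhdsWithin s0 (Set.Iio s0), s < s0 := self_mem_nhdsWithin
  obtain ⟨s, ⟨⟨hf, hg⟩, hs2⟩, hss⟩ :=
    ((((ef.and eg).and e1).filter_mono nhdsWithin_le_nhds).and e2).exists
  have hs1 : 0 < s - 1 := by linarith
  have hp : s / (s - 1) = 1 + 1 / (s - 1) := by
    field_simp
    ring
  have hp1 : 1 < s / (s - 1) := by
    rw [hp]
    have : 0 < 1 / (s - 1) := by positivity
    linarith
  refine ⟨s, s / (s - 1), by linarith, hp1, ?_, ?_, hf.le, hg.le⟩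
  · rw [Real.holderConjugate_iff]
    refine ⟨hp1, ?_⟩
    have hsne : s ≠ 0 := by linarith
    rw [inv_div]
    field_simp
    ring
  · rw [hp]
    have h7 : Real.log 2 / Real.log 3 = 1 / (s0 - 1) := by
      rw [hs0, add_sub_cancel_left, one_div_div]
    rw [h7]
    have h8 : 1 / (s0 - 1) < 1 / (s - 1) := one_div_lt_one_div_of_lt hs1 (by linarith)
    linarith

theorem mink {L T : Type} [Fintype L] [Fintype T] (s : ℝ) (hs : 1 < s) (a : T → L → ℝ)
    (ha : ∀ t l, 0 ≤ a t l) (h : ∀ t, ∑ l, a t l ^ s ≤ 1) (x : T → ℝ) (hx : ∀ t, 0 ≤ x t) :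
    ∑ l, (∑ t, x t * a t l) ^ s ≤ (∑ t, x t) ^ s := by
  have hS0 : 0 ≤ ∑ t, x t := Finset.sum_nonneg fun t _ => hx t
  rcases hS0.eq_or_lt with hS | hS
  · have hx0 : ∀ t, x t = 0 := by
      intro t
      exact (Finset.sum_eq_zero_iff_of_nonneg (fun t _ => hx t)).mp hS.symm t (Finset.mem_univ t)
    simp only [hx0, zero_mul, Finset.sum_const_zero]
    rw [Real.zero_rpow (by linarith)]
    simp
  · have key : ∀ l, (∑ t, x t * a t l) ^ s ≤
        (∑ t, x t) ^ s * ∑ t, (x t / ∑ t, x t) * a t l ^ s := by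
      intro l
      have e : ∑ t, x t * a t l = (∑ t, x t) * ∑ t, (x t / ∑ t, x t) * a t l := by
        rw [Finset.mul_sum]
        refine Finset.sum_congr rfl fun t _ => ?_
        field_simp
      rw [e, Real.mul_rpow hS0 (Finset.sum_nonneg fun t _ =>
        mul_nonneg (div_nonneg (hx t) hS0) (ha t l))]
      refine mul_le_mul_of_nonneg_left ?_ (Real.rpow_nonneg hS0 _)
      refine Real.rpow_arith_mean_le_arith_mean_rpow _ _ _ (fun t _ => div_nonneg (hx t) hS0) ?_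
        (fun t _ => ha t l) hs.le
      rw [← Finset.sum_div, div_self hS.ne']
    calc ∑ l, (∑ t, x t * a t l) ^ s
        ≤ ∑ l, (∑ t, x t) ^ s * ∑ t, (x t / ∑ t, x t) * a t l ^ s :=
          Finset.sum_le_sum fun l _ => key l
      _ = (∑ t, x t) ^ s * ∑ t, (x t / ∑ t, x t) * ∑ l, a t l ^ s := by
          rw [← Finset.mul_sum, Finset.sum_comm]
          congr 1
          refine Finset.sum_congr rfl fun t _ => ?_
          rw [Finset.mul_sum]
      _ ≤ (∑ t, x t) ^ s * ∑ t, (x t / ∑ t, x t) * 1 := by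
          refine mul_le_mul_of_nonneg_left ?_ (Real.rpow_nonneg hS0 _)
          refine Finset.sum_le_sum fun t _ => ?_
          exact mul_le_mul_of_nonneg_left (h t) (div_nonneg (hx t) hS0)
      _ = (∑ t, x t) ^ s := by
          simp only [mul_one]
          rw [← Finset.sum_div, div_self hS.ne', mul_one]

theorem J4_sum {L : Type} [Fintype L] [DecidableEq L] (g : List L → ℝ) (hg : ∀ v, 0 ≤ g v)
    (A : Finset (List L)) (w : List L) :
    ∑ l, ∑ v ∈ A.filter (fun v => (l :: w) <:+ v), g v ≤ ∑ v ∈ A.filter (fun v => w <:+ v), g v := by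
  simp only [Finset.sum_filter]
  rw [Finset.sum_comm]
  apply Finset.sum_le_sum
  intro v _
  by_cases h : ∃ l0, (l0 :: w) <:+ v
  · obtain ⟨l0, h0⟩ := h
    have hw : w <:+ v := (List.suffix_cons l0 w).trans h0
    rw [if_pos hw, Finset.sum_eq_single l0, if_pos h0]
    · intro l _ hl
      rw [if_neg]
      intro h1
      apply hl
      have h2 : (l :: w) <:+ (l0 :: w) :=
        List.suffix_of_suffix_length_le h1 h0 (by simp)
      have h3 := h2.eq_of_length (by simp)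
      exact (List.cons.inj h3).1
    · intro h1
      exact absurd (Finset.mem_univ l0) h1
  · push Not at h
    rw [Finset.sum_eq_zero (fun l _ => if_neg (h l))]
    split_ifs
    · exact hg v
    · exact le_rfl

theorem J4_main {L : Type} [Fintype L] [DecidableEq L] (F C ρ : List L → ℝ) (N : ℕ) (p s : ℝ)
    (hp : 1 < p) (hs : 1 < s) (hps : p.HolderConjugate s)
    (hC : ∀ w, 0 ≤ C w) (hρ : ∀ w, 0 ≤ ρ w)
    (h1 : ∀ w, w.length < N → F w = ∑ l, F (l :: w))
    (h2 : ∀ w, ∑ l, C (l :: w) ^ s ≤ C w ^ s)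
    (h3 : ∀ w, w.length ≤ N → F w ≤ C w * ρ w)
    (A : Finset (List L)) (k : ℕ) : ∀ w : List L, w.length + k = N →
    (∀ w', w'.length = N → w <:+ w' → C w' ≠ 0 → ∃ v ∈ A, w <:+ v ∧ v <:+ w') →
    F w ≤ C w * (∑ v ∈ A.filter (fun v => w <:+ v), ρ v ^ p) ^ (1 / p) := by
  have hp0 : 0 < p := by linarith
  have hs0 : 0 < s := by linarith
  have hgp : ∀ v, 0 ≤ ρ v ^ p := fun v => Real.rpow_nonneg (hρ v) p
  have hzero : ∀ w : List L, w.length ≤ N → C w = 0 →
      F w ≤ C w * (∑ v ∈ A.filter (fun v => w <:+ v), ρ v ^ p) ^ (1 / p) := by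
    intro w hw h0
    have := h3 w hw
    rw [h0, zero_mul] at this ⊢
    exact this
  have hinA : ∀ w : List L, w.length ≤ N → w ∈ A →
      F w ≤ C w * (∑ v ∈ A.filter (fun v => w <:+ v), ρ v ^ p) ^ (1 / p) := by
    intro w hw hA
    refine (h3 w hw).trans (mul_le_mul_of_nonneg_left ?_ (hC w))
    have e1 : ρ w = (ρ w ^ p) ^ (1 / p) := by
      rw [← Real.rpow_mul (hρ w), mul_one_div_cancel hp0.ne', Real.rpow_one]
    have e2 : ρ w ^ p ≤ ∑ v ∈ A.filter (fun v => w <:+ v), ρ v ^ p :=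
      Finset.single_le_sum (f := fun v => ρ v ^ p) (fun v _ => hgp v)
        (Finset.mem_filter.2 ⟨hA, List.suffix_refl w⟩)
    calc ρ w = (ρ w ^ p) ^ (1 / p) := e1
      _ ≤ _ := Real.rpow_le_rpow (hgp w) e2 (by positivity)
  induction k with
  | zero =>
    intro w hw hst
    by_cases h0 : C w = 0
    · exact hzero w (by omega) h0
    · obtain ⟨v, hvA, hwv, hvw⟩ := hst w (by omega) (List.suffix_refl w) h0
      have : v = w := hvw.eq_of_length_le hwv.length_le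
      rw [this] at hvA
      exact hinA w (by omega) hvA
  | succ k ih =>
    intro w hw hst
    by_cases h0 : C w = 0
    · exact hzero w (by omega) h0
    by_cases hA : w ∈ A
    · exact hinA w (by omega) hA
    have hch : ∀ l, F (l :: w) ≤ C (l :: w) *
        (∑ v ∈ A.filter (fun v => (l :: w) <:+ v), ρ v ^ p) ^ (1 / p) := by
      intro l
      apply ih (l :: w) (by simp; omega)
      intro w' hw' hsuf hC'
      obtain ⟨v, hvA, hwv, hvw⟩ := hst w' hw' ((List.suffix_cons l w).trans hsuf) hC'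
      refine ⟨v, hvA, ?_, hvw⟩
      rcases List.suffix_or_suffix_of_suffix hsuf hvw with h | h
      · exact h
      · have hne : w.length ≠ v.length := by
          intro hlen
          have := hwv.eq_of_length hlen
          rw [← this] at hvA
          exact hA hvA
        have hl1 := hwv.length_le
        have hl2 := h.length_le
        rw [List.length_cons] at hl2
        have := h.eq_of_length (by rw [List.length_cons]; omega)
        rw [this]
    have hSnn : ∀ l, 0 ≤ ∑ v ∈ A.filter (fun v => (l :: w) <:+ v), ρ v ^ p :=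
      fun l => Finset.sum_nonneg (fun v _ => hgp v)
    have hold := Real.inner_le_Lp_mul_Lq_of_nonneg (Finset.univ : Finset L) hps.symm
      (f := fun l => C (l :: w))
      (g := fun l => (∑ v ∈ A.filter (fun v => (l :: w) <:+ v), ρ v ^ p) ^ (1 / p))
      (fun l _ => hC _) (fun l _ => Real.rpow_nonneg (hSnn l) _)
    have e1 : ∀ l, ((∑ v ∈ A.filter (fun v => (l :: w) <:+ v), ρ v ^ p) ^ (1 / p)) ^ p =
        ∑ v ∈ A.filter (fun v => (l :: w) <:+ v), ρ v ^ p := by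
      intro l
      rw [← Real.rpow_mul (hSnn l), one_div_mul_cancel hp0.ne', Real.rpow_one]
    have e2 : (∑ l, C (l :: w) ^ s) ^ (1 / s) ≤ C w := by
      calc (∑ l, C (l :: w) ^ s) ^ (1 / s) ≤ (C w ^ s) ^ (1 / s) :=
            Real.rpow_le_rpow (Finset.sum_nonneg (fun l _ => Real.rpow_nonneg (hC _) _)) (h2 w)
              (by positivity)
        _ = C w := by
            rw [← Real.rpow_mul (hC w), mul_one_div_cancel hs0.ne', Real.rpow_one]
    have e3 : (∑ l, ∑ v ∈ A.filter (fun v => (l :: w) <:+ v), ρ v ^ p) ^ (1 / p) ≤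
        (∑ v ∈ A.filter (fun v => w <:+ v), ρ v ^ p) ^ (1 / p) :=
      Real.rpow_le_rpow (Finset.sum_nonneg (fun l _ => hSnn l)) (J4_sum _ hgp A w) (by positivity)
    calc F w = ∑ l, F (l :: w) := h1 w (by omega)
      _ ≤ ∑ l, C (l :: w) * (∑ v ∈ A.filter (fun v => (l :: w) <:+ v), ρ v ^ p) ^ (1 / p) :=
          Finset.sum_le_sum (fun l _ => hch l)
      _ ≤ (∑ l, C (l :: w) ^ s) ^ (1 / s) *
          (∑ l, ((∑ v ∈ A.filter (fun v => (l :: w) <:+ v), ρ v ^ p) ^ (1 / p)) ^ p) ^ (1 / p) := hold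
      _ = (∑ l, C (l :: w) ^ s) ^ (1 / s) *
          (∑ l, ∑ v ∈ A.filter (fun v => (l :: w) <:+ v), ρ v ^ p) ^ (1 / p) := by
          rw [Finset.sum_congr rfl (fun l _ => e1 l)]
      _ ≤ C w * (∑ v ∈ A.filter (fun v => w <:+ v), ρ v ^ p) ^ (1 / p) :=
          mul_le_mul e2 e3 (Real.rpow_nonneg (Finset.sum_nonneg (fun l _ => hSnn l)) _) (hC w)

theorem J4 {L : Type} [Fintype L] [DecidableEq L] (F C ρ : List L → ℝ) (N : ℕ) (p s : ℝ)
    (hp : 1 < p) (hs : 1 < s) (hps : p.HolderConjugate s)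
    (hC : ∀ w, 0 ≤ C w) (hρ : ∀ w, 0 ≤ ρ w)
    (h1 : ∀ w, w.length < N → F w = ∑ l, F (l :: w))
    (h2 : ∀ w, ∑ l, C (l :: w) ^ s ≤ C w ^ s)
    (h3 : ∀ w, w.length ≤ N → F w ≤ C w * ρ w)
    (A : Finset (List L))
    (hA : ∀ w, w.length = N → C w ≠ 0 → ∃ v ∈ A, v <:+ w) :
    F [] ≤ C [] * (∑ v ∈ A, ρ v ^ p) ^ (1 / p) := by
  have h := J4_main F C ρ N p s hp hs hps hC hρ h1 h2 h3 A N [] (by simp) (by
    intro w' hw' _ hC'
    obtain ⟨v, hv, hvw⟩ := hA w' hw' hC'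
    exact ⟨v, hv, List.nil_suffix, hvw⟩)
  have h4 : A.filter (fun v => ([] : List L) <:+ v) = A :=
    Finset.filter_true_of_mem (fun v _ => List.nil_suffix)
  rw [h4] at h
  exact h

theorem J10 {Y : Type} [MetricSpace Y] [CompactSpace Y] (p : ℝ) (hp : 1 < p)
    (h : dimH (Set.univ : Set Y) < ENNReal.ofReal p) (ε : ℝ) (hε : 0 < ε) :
    ∃ (n : ℕ) (W : Fin n → Set Y), (∀ i, IsOpen (W i)) ∧ (∀ i, (W i).Nonempty) ∧
      (⋃ i, W i) = Set.univ ∧ ∑ i, Metric.diam (W i) ^ p < ε := by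
  classical
  borelize Y
  have hp0 : 0 < p := by linarith
  have h0 : MeasureTheory.Measure.hausdorffMeasure p (Set.univ : Set Y) = 0 := by
    have h1 : dimH (Set.univ : Set Y) < ((p.toNNReal : ℝ≥0) : ℝ≥0∞) := h
    have h2 := hausdorffMeasure_of_dimH_lt h1
    rwa [Real.coe_toNNReal p hp0.le] at h2
  rw [MeasureTheory.Measure.hausdorffMeasure_apply] at h0
  have h1 : (⨅ (t : ℕ → Set Y) (_ : Set.univ ⊆ ⋃ n, t n) (_ : ∀ n, Metric.ediam (t n) ≤ 1),
      ∑' n, ⨆ _ : (t n).Nonempty, Metric.ediam (t n) ^ p) < ENNReal.ofReal (ε / 2) := by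
    refine lt_of_le_of_lt ?_ (ENNReal.ofReal_pos.2 (by positivity) : (0 : ℝ≥0∞) < ENNReal.ofReal (ε / 2))
    rw [← h0]
    exact le_iSup₂_of_le (1 : ℝ≥0∞) one_pos le_rfl
  simp only [iInf_lt_iff] at h1
  obtain ⟨t, hcov, -, hsum⟩ := h1
  have hfin : ∀ s : Set Y, Metric.ediam s ≠ ⊤ := fun s =>
    Metric.isBounded_of_compactSpace.ediam_ne_top
  have hδ : ∀ n, ∃ δ : ℝ, 0 < δ ∧
      (Metric.diam (t n) + 2 * δ) ^ p < Metric.diam (t n) ^ p + ε / 4 * (1 / 2) ^ n := by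
    intro n
    have hc : Filter.Tendsto (fun δ : ℝ => (Metric.diam (t n) + 2 * δ) ^ p)
        (nhdsWithin 0 (Set.Ioi 0)) (nhds (Metric.diam (t n) ^ p)) := by
      have : ContinuousAt (fun δ : ℝ => (Metric.diam (t n) + 2 * δ) ^ p) 0 :=
        ContinuousAt.rpow_const (by fun_prop) (Or.inr hp0.le)
      have h2 := this.tendsto
      simp only [mul_zero, add_zero] at h2
      exact h2.mono_left nhdsWithin_le_nhds
    have h3 : Metric.diam (t n) ^ p < Metric.diam (t n) ^ p + ε / 4 * (1 / 2) ^ n := by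
      have : 0 < ε / 4 * (1 / 2) ^ n := by positivity
      linarith
    have h4 := (hc.eventually (gt_mem_nhds h3)).and self_mem_nhdsWithin
    obtain ⟨δ, h5, h6⟩ := h4.exists
    exact ⟨δ, h6, h5⟩
  choose δ hδ0 hδ1 using hδ
  obtain ⟨W', hW'⟩ : ∃ W' : ℕ → Set Y, W' = fun n => Metric.thickening (δ n) (t n) := ⟨_, rfl⟩
  have hopen : ∀ n, IsOpen (W' n) := fun n => by rw [hW']; exact Metric.isOpen_thickening
  have hsub : ∀ n, t n ⊆ W' n := fun n => by
    rw [hW']; exact Metric.self_subset_thickening (hδ0 n) _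
  obtain ⟨s, hs⟩ := isCompact_univ.elim_finite_subcover W' hopen
    (hcov.trans (Set.iUnion_mono hsub))
  obtain ⟨s', hs'⟩ : ∃ s' : Finset ℕ, s' = s.filter (fun n => (t n).Nonempty) := ⟨_, rfl⟩
  have hmem : ∀ n, n ∈ s' ↔ n ∈ s ∧ (t n).Nonempty := fun n => by rw [hs', Finset.mem_filter]
  let e := s'.equivFin.symm
  refine ⟨s'.card, fun i => W' (e i), fun i => hopen _, fun i => ?_, ?_, ?_⟩
  · exact ((hmem _).1 (e i).2).2.mono (hsub _)
  · rw [Set.eq_univ_iff_forall]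
    intro x
    have hx := hs (Set.mem_univ x)
    simp only [Set.mem_iUnion] at hx ⊢
    obtain ⟨n, hn, hxn⟩ := hx
    have hne : (t n).Nonempty := by
      rw [hW'] at hxn
      obtain ⟨z, hz, -⟩ := Metric.mem_thickening_iff.1 hxn
      exact ⟨z, hz⟩
    refine ⟨e.symm ⟨n, (hmem n).2 ⟨hn, hne⟩⟩, ?_⟩
    rw [Equiv.apply_symm_apply]
    exact hxn
  · have e1 : ∑ i, Metric.diam (W' (e i)) ^ p = ∑ n ∈ s', Metric.diam (W' n) ^ p := by
      rw [Equiv.sum_comp e (fun n : s' => Metric.diam (W' n) ^ p)]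
      exact Finset.sum_coe_sort s' (fun n => Metric.diam (W' n) ^ p)
    rw [e1]
    have e2 : ∑ n ∈ s', Metric.diam (W' n) ^ p ≤
        ∑ n ∈ s', (Metric.diam (t n) ^ p + ε / 4 * (1 / 2) ^ n) := by
      refine Finset.sum_le_sum fun n _ => ?_
      refine le_trans ?_ (hδ1 n).le
      refine Real.rpow_le_rpow Metric.diam_nonneg ?_ hp0.le
      rw [hW']
      exact Metric.diam_thickening_le _ (hδ0 n).le
    have e3 : ∑ n ∈ s', (ε / 4 * (1 / 2 : ℝ) ^ n) ≤ ε / 2 := by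
      rw [← Finset.mul_sum]
      have : ∑ n ∈ s', (1 / 2 : ℝ) ^ n ≤ 2 := by
        exact (summable_geometric_two.sum_le_tsum s' (fun n _ => by positivity)).trans
          tsum_geometric_two.le
      nlinarith
    have e4 : ∑ n ∈ s', Metric.diam (t n) ^ p < ε / 2 := by
      rw [← ENNReal.ofReal_lt_ofReal_iff (by positivity)]
      refine lt_of_le_of_lt ?_ hsum
      rw [ENNReal.ofReal_sum_of_nonneg (fun n _ => Real.rpow_nonneg Metric.diam_nonneg p)]
      refine le_trans ?_ (ENNReal.sum_le_tsum s')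
      refine Finset.sum_le_sum fun n hn => ?_
      have hne := ((hmem n).1 hn).2
      refine le_trans ?_ (le_iSup_of_le hne le_rfl)
      rw [← ENNReal.ofReal_rpow_of_nonneg Metric.diam_nonneg hp0.le]
      unfold Metric.diam
      rw [ENNReal.ofReal_toReal (hfin _)]
    rw [Finset.sum_add_distrib] at e2
    linarith

end Pool.Agent.MP049a2b
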